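import Pool.Agent.Lib.MP_1433c5_co.DomAsymp

/-!
Upper and lower bounds for the number of completely independent spanning trees of `Q_n`.
-/

namespace Pool.Agent.Lib.MP_1433c5_co

open SimpleGraph

/-- The set of achievable numbers of completely independent spanning trees. -/
def cistSet (n : ℕ) : Set ℕ :=
  {k : ℕ | ∃ T : Fin k → SimpleGraph (Fin n → Bool), IsCIST (cube (Fin n)) T}

lemma exists_flip_of_adj {n : ℕ} {x y : Fin n → Bool} (h : (cube (Fin n)).Adj x y) :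
    ∃ i, y = flipAt x i := by
  have h1 : hammingDist x y = 1 := h
  unfold hammingDist at h1
  rw [Finset.card_eq_one] at h1
  obtain ⟨i, hi⟩ := h1
  refine ⟨i, ?_⟩
  funext j
  by_cases hj : j = i
  · subst hj
    have : j ∈ (Finset.univ.filter fun i => x i ≠ y i) := by rw [hi]; simp
    have h2 : x j ≠ y j := (Finset.mem_filter.mp this).2
    rw [flipAt_same]
    revert h2
    cases x j <;> cases y j <;> simp
  · rw [flipAt_ne x hj]
    by_contra hne
    have : j ∈ (Finset.univ.filter fun i => x i ≠ y i) := by simp [Ne.symm hne]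
    rw [hi] at this
    exact hj (Finset.mem_singleton.mp this)

/-- Counting edges: `2 k ≤ n + 1`. -/
lemma upper_bound {n k : ℕ} (hn : 1 ≤ n) (hk : k ∈ cistSet n) : 2 * k ≤ n + 1 := by
  classical
  obtain ⟨T, hT, hdisj⟩ := hk
  have hE : ∀ i, (T i).edgeFinset.card + 1 = 2 ^ n := by
    intro i
    have := (hT i).2.card_edgeFinset
    simpa using this
  have hpd : ∀ i j, i ≠ j → Disjoint (T i).edgeFinset (T j).edgeFinset := by
    intro i j hij
    rw [Finset.disjoint_left]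
    intro e he1 he2
    induction e using Sym2.ind with
    | _ u v =>
      rw [SimpleGraph.mem_edgeFinset, SimpleGraph.mem_edgeSet] at he1 he2
      have huv : u ≠ v := he1.ne
      have hp1 : (Walk.cons he1 Walk.nil).IsPath := by simp [huv]
      have hp2 : (Walk.cons he2 Walk.nil).IsPath := by simp [huv]
      exact (hdisj u v huv i j hij _ _ hp1 hp2).1 s(u, v) (by simp) (by simp)
  have hsub : (Finset.univ.biUnion fun i => (T i).edgeFinset) ⊆ (cube (Fin n)).edgeFinset := by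
    intro e he
    rw [Finset.mem_biUnion] at he
    obtain ⟨i, -, hi⟩ := he
    rw [SimpleGraph.mem_edgeFinset] at hi ⊢
    exact SimpleGraph.edgeSet_mono (hT i).1 hi
  have h1 : k * (2 ^ n - 1) ≤ (cube (Fin n)).edgeFinset.card := by
    calc k * (2 ^ n - 1) = ∑ _i : Fin k, (2 ^ n - 1) := by simp
      _ = ∑ i : Fin k, (T i).edgeFinset.card := by
          refine Finset.sum_congr rfl ?_
          intro i _
          have := hE i
          omega
      _ = (Finset.univ.biUnion fun i => (T i).edgeFinset).card := by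
          rw [Finset.card_biUnion]
          intro i _ j _ hij
          exact hpd i j hij
      _ ≤ (cube (Fin n)).edgeFinset.card := Finset.card_le_card hsub
  have h2 : 2 * (cube (Fin n)).edgeFinset.card ≤ n * 2 ^ n := by
    rw [← SimpleGraph.sum_degrees_eq_twice_card_edges]
    have hd : ∀ x, (cube (Fin n)).degree x ≤ n := by
      intro x
      rw [← SimpleGraph.card_neighborFinset_eq_degree]
      have : (cube (Fin n)).neighborFinset x ⊆ Finset.univ.image (flipAt x) := by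
        intro y hy
        rw [SimpleGraph.mem_neighborFinset] at hy
        obtain ⟨i, hi⟩ := exists_flip_of_adj hy
        exact Finset.mem_image.mpr ⟨i, Finset.mem_univ _, hi.symm⟩
      calc ((cube (Fin n)).neighborFinset x).card ≤ (Finset.univ.image (flipAt x)).card :=
            Finset.card_le_card this
        _ ≤ (Finset.univ : Finset (Fin n)).card := Finset.card_image_le
        _ = n := by simp
    calc ∑ x, (cube (Fin n)).degree x ≤ ∑ _x : Fin n → Bool, n := Finset.sum_le_sum fun x _ => hd x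
      _ = n * 2 ^ n := by simp [mul_comm]
  have h3 : n + 1 ≤ 2 ^ n := Nat.lt_two_pow_self
  have h4 : 2 * k * (2 ^ n - 1) ≤ (n + 1) * (2 ^ n - 1) := by
    have e1 : 2 * k * (2 ^ n - 1) ≤ n * 2 ^ n := by
      calc 2 * k * (2 ^ n - 1) = 2 * (k * (2 ^ n - 1)) := by ring
        _ ≤ 2 * (cube (Fin n)).edgeFinset.card := Nat.mul_le_mul_left 2 h1
        _ ≤ n * 2 ^ n := h2
    obtain ⟨m, hm⟩ : ∃ m, 2 ^ n = m + 1 := ⟨2 ^ n - 1, by omega⟩
    rw [hm] at e1 h3 ⊢
    simp only [Nat.add_sub_cancel] at e1 ⊢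
    nlinarith
  exact Nat.le_of_mul_le_mul_right h4 (by omega)

lemma zero_mem_cistSet (n : ℕ) : 0 ∈ cistSet n :=
  ⟨fun i => i.elim0, fun i => i.elim0, fun _ _ _ i => i.elim0⟩

lemma bddAbove_cistSet {n : ℕ} (hn : 1 ≤ n) : BddAbove (cistSet n) :=
  ⟨n + 1, fun k hk => by have := upper_bound hn hk; omega⟩

lemma f_mem {n : ℕ} (hn : 1 ≤ n) : f n ∈ cistSet n :=
  Nat.sSup_mem ⟨0, zero_mem_cistSet n⟩ (bddAbove_cistSet hn)

lemma le_f {n k : ℕ} (hn : 1 ≤ n) (hk : k ∈ cistSet n) : k ≤ f n :=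
  le_csSup (bddAbove_cistSet hn) hk

/-- An evenly spread map onto `2^t` values. -/
lemma exists_spread (k0 t : ℕ) (h : 2 ^ t ≤ k0) :
    ∃ a : Fin k0 → (Fin t → Bool), Function.Surjective a ∧
      ∀ y : (Fin t → Bool) × (Fin t → Bool),
        k0 - 2 * (k0 / 2 ^ t + 1) ≤ Nat.card {g : Fin k0 // a g ≠ y.1 ∧ a g ≠ y.2} := by
  classical
  have hcard : Fintype.card (Fin (2 ^ t)) = Fintype.card (Fin t → Bool) := by simp
  let e : Fin (2 ^ t) ≃ (Fin t → Bool) := Fintype.equivOfCardEq hcard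
  have hpos : 0 < 2 ^ t := by positivity
  let md : Fin k0 → Fin (2 ^ t) := fun g => ⟨g.val % 2 ^ t, Nat.mod_lt _ hpos⟩
  refine ⟨fun g => e (md g), ?_, ?_⟩
  · intro v
    obtain ⟨w, hw⟩ := e.surjective v
    refine ⟨⟨w.val, lt_of_lt_of_le w.isLt h⟩, ?_⟩
    rw [← hw]
    refine congrArg e ?_
    apply Fin.ext
    exact Nat.mod_eq_of_lt w.isLt
  · have hfib : ∀ v : Fin t → Bool, (Finset.univ.filter fun g => e (md g) = v).card ≤
        k0 / 2 ^ t + 1 := by
      intro v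
      have : (Finset.univ.filter fun g => e (md g) = v).card ≤
          (Finset.range (k0 / 2 ^ t + 1)).card := by
        refine Finset.card_le_card_of_injOn (fun g => g.val / 2 ^ t) ?_ ?_
        · intro g _
          simp only [Finset.coe_range, Set.mem_Iio]
          exact Nat.lt_succ_of_le (Nat.div_le_div_right g.isLt.le)
        · intro g hg g' hg' hgg
          have h1 : e (md g) = v := (Finset.mem_filter.mp hg).2
          have h2 : e (md g') = v := (Finset.mem_filter.mp hg').2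
          have h3 : md g = md g' := e.injective (h1.trans h2.symm)
          have h4 : g.val % 2 ^ t = g'.val % 2 ^ t := congrArg Fin.val h3
          apply Fin.ext
          have h5 : g.val / 2 ^ t = g'.val / 2 ^ t := hgg
          rw [← Nat.div_add_mod g.val (2 ^ t), ← Nat.div_add_mod g'.val (2 ^ t), h4, h5]
      simpa using this
    intro y
    rw [Nat.card_eq_fintype_card, Fintype.card_subtype]
    have hun : (Finset.univ : Finset (Fin k0)) ⊆
        (Finset.univ.filter fun g => e (md g) ≠ y.1 ∧ e (md g) ≠ y.2) ∪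
        ((Finset.univ.filter fun g => e (md g) = y.1) ∪
          (Finset.univ.filter fun g => e (md g) = y.2)) := by
      intro g _
      simp only [Finset.mem_union, Finset.mem_filter, Finset.mem_univ, true_and]
      tauto
    have h1 := Finset.card_le_card hun
    have h2 := Finset.card_union_le (Finset.univ.filter fun g => e (md g) ≠ y.1 ∧ e (md g) ≠ y.2)
      ((Finset.univ.filter fun g => e (md g) = y.1) ∪
          (Finset.univ.filter fun g => e (md g) = y.2))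
    have h3 := Finset.card_union_le (Finset.univ.filter fun g => e (md g) = y.1)
      (Finset.univ.filter fun g => e (md g) = y.2)
    have h4 := hfib y.1
    have h5 := hfib y.2
    have h6 : (Finset.univ : Finset (Fin k0)).card = k0 := by simp
    show k0 - 2 * (k0 / 2 ^ t + 1) ≤
      (Finset.univ.filter fun g => e (md g) ≠ y.1 ∧ e (md g) ≠ y.2).card
    omega

/-- The lower bound for given parameters. -/
lemma lower_bound {n n1 k0 t s : ℕ} (hn : n = 2 * n1 + 2 * t + s) (hn1 : 1 ≤ n)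
    (hdom : DomT (Fin n1) (Fin k0)) (ht : 2 ^ t ≤ k0) (hs : k0 ≤ 2 ^ s) :
    k0 - 2 * (k0 / 2 ^ t + 1) ≤ f n := by
  rcases Nat.eq_zero_or_pos (k0 - 2 * (k0 / 2 ^ t + 1)) with h0 | h0
  · rw [h0]; exact Nat.zero_le _
  · obtain ⟨a, ha, hK⟩ := exists_spread k0 t ht
    have : NeZero k0 := ⟨by
      rintro rfl
      simp at h0⟩
    have hcol := hasCol_cube (Γ := Fin k0) hdom t s n a ha h0 ((Nat.sub_le _ _).trans hs) hK
      (by rw [Fintype.card_fin]; exact hn)
    exact le_f hn1 hcol.exists_isCIST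

lemma log_sq_le (n : ℕ) (hn : 1 ≤ n) : Nat.log 2 n * Nat.log 2 n ≤ 2 * n := by
  have h1 : ∀ L : ℕ, L * L ≤ 2 * 2 ^ L := by
    intro L
    induction L with
    | zero => simp
    | succ L ih =>
      have h2 : L < 2 ^ L := Nat.lt_two_pow_self
      rw [pow_succ]
      nlinarith
  have h3 : 2 ^ Nat.log 2 n ≤ n := Nat.pow_log_le_self 2 (by omega)
  have := h1 (Nat.log 2 n)
  omega

/-- Real-number bookkeeping for the lower bound. -/
lemma real_estimate (η n L t k0 F : ℝ) (hη : 0 < η) (hη1 : η ≤ 1) (_hn : 0 ≤ n) (hL0 : 0 ≤ L)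
    (ht0 : 0 ≤ t) (hbig : 2 * t + L + 2 ≤ n) (hLR : L ≤ η / 4 * n)
    (hN2 : 4 * (t + 4) ≤ η * n)
    (hk : (1 - η / 2) * ((n - 2 * t - L - 2) / 2) ≤ k0)
    (hK : k0 - 2 * (k0 * (η / 4) + 1) ≤ F) : (1 / 2 - η) * n ≤ F := by
  have h1 : (1 - η / 2) * k0 - 2 ≤ F := by linarith
  have h2 : (1 - η / 2) * ((1 - η / 2) * ((n - 2 * t - L - 2) / 2)) ≤ (1 - η / 2) * k0 :=
    mul_le_mul_of_nonneg_left hk (by linarith)
  have h3 : (1 - η) * ((n - 2 * t - L - 2) / 2) ≤
      (1 - η / 2) * ((1 - η / 2) * ((n - 2 * t - L - 2) / 2)) := by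
    have h5 : 0 ≤ (n - 2 * t - L - 2) / 2 := by linarith
    have h6 : (1 - η) ≤ (1 - η / 2) * (1 - η / 2) := by nlinarith [sq_nonneg η]
    calc (1 - η) * ((n - 2 * t - L - 2) / 2)
        ≤ ((1 - η / 2) * (1 - η / 2)) * ((n - 2 * t - L - 2) / 2) :=
          mul_le_mul_of_nonneg_right h6 h5
      _ = _ := by ring
  have h4 : (1 - η) * ((n - 2 * t - L - 2) / 2) =
      (1 / 2 - η / 2) * n - (1 - η) * ((2 * t + L + 2) / 2) := by ring
  have h5 : (1 - η) * ((2 * t + L + 2) / 2) ≤ 1 * ((2 * t + L + 2) / 2) :=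
    mul_le_mul_of_nonneg_right (by linarith) (by linarith)
  linarith

lemma size_facts (n L t B : ℕ) (hLs : L * L ≤ 2 * n) (hB : 2 ≤ B)
    (hn : 2 * B + 2 * t + 16 * (B + t + 2) ^ 2 + 2 ≤ n) :
    2 * t + (L + 1) ≤ n ∧ B ≤ (n - 2 * t - (L + 1)) / 2 ∧ 2 * t + L + 2 ≤ n := by
  have hL2 : 2 * L ≤ n := by
    by_contra hcon
    push Not at hcon
    have h16 : 16 ≤ n := by nlinarith
    nlinarith
  have h1 : 16 * (B + t + 2) ^ 2 ≤ n := by omega
  have h2 : 4 * (B + t + 2) ≤ n := by nlinarith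
  omega

lemma log_small (η : ℝ) (hη : 0 < η) (n L : ℕ) (hn1 : 1 ≤ n) (hLs : L * L ≤ 2 * n)
    (h2 : 32 / η ^ 2 ≤ n) : (L : ℝ) ≤ η / 4 * n := by
  have h1 : (L : ℝ) * L ≤ 2 * n := by exact_mod_cast hLs
  have hη2 : 0 < η ^ 2 := by positivity
  have h3 : 32 ≤ η ^ 2 * n := by
    rw [div_le_iff₀ hη2] at h2
    linarith
  have h4 : (0 : ℝ) ≤ η / 4 * n := by positivity
  by_contra hcon
  push Not at hcon
  have h5 : (η / 4 * n) * (η / 4 * n) < L * L := mul_self_lt_mul_self h4 hcon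
  have h6 : (0 : ℝ) < n := by exact_mod_cast hn1
  have h7 : (η / 4 * n) * (η / 4 * n) = (η ^ 2 * n) * n / 16 := by ring
  have h8 : 32 * (n : ℝ) ≤ (η ^ 2 * n) * n := mul_le_mul_of_nonneg_right h3 h6.le
  linarith

/-- `f(n) ≥ (1/2 - η) n` for all large `n`. -/
theorem eventually_lower (η : ℝ) (hη : 0 < η) (hη1 : η ≤ 1) :
    ∃ N : ℕ, ∀ n : ℕ, N ≤ n → (1 / 2 - η) * n ≤ f n := by
  obtain ⟨t, ht⟩ := pow_unbounded_of_one_lt (4 / η) (by norm_num : (1 : ℝ) < 2)
  obtain ⟨N0, hN0⟩ := exists_domT (η / 2) (by positivity) (by linarith)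
  -- size requirements
  obtain ⟨N1, hN1⟩ := exists_nat_ge (32 / η ^ 2)
  obtain ⟨N2, hN2⟩ := exists_nat_ge (4 * (t + 4) / η)
  obtain ⟨B, hB⟩ : ∃ B, B = N0 + 2 * 2 ^ t + 2 := ⟨_, rfl⟩
  refine ⟨max (max N1 N2) (2 * B + 2 * t + 16 * (B + t + 2) ^ 2 + 2), ?_⟩
  intro n hn
  have hnN1 : N1 ≤ n := le_trans (le_trans (le_max_left _ _) (le_max_left _ _)) hn
  have hnN2 : N2 ≤ n := le_trans (le_trans (le_max_right _ _) (le_max_left _ _)) hn
  have hnN3 := le_trans (le_max_right _ _) hn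
  clear hn
  obtain ⟨L, hL⟩ : ∃ L, L = Nat.log 2 n := ⟨_, rfl⟩
  have hn1 : 1 ≤ n := by omega
  have hLs : L * L ≤ 2 * n := by rw [hL]; exact log_sq_le n hn1
  obtain ⟨hge, hBn, hbig⟩ := size_facts n L t B hLs (by omega) hnN3
  obtain ⟨n1, hn1'⟩ : ∃ n1, n1 = (n - 2 * t - (L + 1)) / 2 := ⟨_, rfl⟩
  obtain ⟨s, hs⟩ : ∃ s, s = n - 2 * t - 2 * n1 := ⟨_, rfl⟩
  rw [← hn1'] at hBn
  have hs1 : L + 1 ≤ s := by omega
  have hsum : n = 2 * n1 + 2 * t + s := by omega
  have hn1N0 : N0 ≤ n1 := by omega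
  have hn1B : 2 * 2 ^ t ≤ n1 := by omega
  obtain ⟨k0, hk1, hk2, hk3, hdom⟩ := hN0 n1 hn1N0
  have hn1R : ((n : ℝ) - 2 * t - L - 2) / 2 ≤ n1 := by
    have h1 : n ≤ 2 * n1 + 2 * t + (L + 1) + 1 := by omega
    have h2 : (n : ℝ) ≤ 2 * n1 + 2 * t + (L + 1) + 1 := by exact_mod_cast h1
    linarith
  have hk0t : 2 ^ t ≤ k0 := by
    have h1 : (2 * 2 ^ t : ℝ) ≤ n1 := by exact_mod_cast hn1B
    have h2 : (2 ^ t : ℝ) ≤ k0 := by
      have h3 : (0 : ℝ) ≤ n1 := Nat.cast_nonneg _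
      nlinarith
    exact_mod_cast h2
  have hks : k0 ≤ 2 ^ s := by
    have h1 : n < 2 ^ (L + 1) := by rw [hL]; exact Nat.lt_pow_succ_log_self (by norm_num) n
    have h2 : 2 ^ (L + 1) ≤ 2 ^ s := Nat.pow_le_pow_right (by norm_num) hs1
    omega
  have hlow := lower_bound hsum hn1 hdom hk0t hks
  -- real estimates
  have hpow : (0 : ℝ) < 2 ^ t := by positivity
  have hdiv : ((k0 / 2 ^ t : ℕ) : ℝ) ≤ k0 / 2 ^ t := by
    have := @Nat.cast_div_le ℝ _ _ _ k0 (2 ^ t)
    simpa using this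
  have hdiv2 : (k0 : ℝ) / 2 ^ t ≤ k0 * (η / 4) := by
    rw [div_le_iff₀ hpow]
    have h2 : 1 ≤ η / 4 * 2 ^ t := by
      rw [div_lt_iff₀ hη] at ht
      linarith
    have h3 : (0 : ℝ) ≤ k0 := Nat.cast_nonneg _
    calc (k0 : ℝ) = k0 * 1 := (mul_one _).symm
      _ ≤ k0 * (η / 4 * 2 ^ t) := mul_le_mul_of_nonneg_left h2 h3
      _ = k0 * (η / 4) * 2 ^ t := by ring
  have hK : (k0 : ℝ) - 2 * (k0 * (η / 4) + 1) ≤ f n := by
    have h1 : (k0 : ℝ) - 2 * (((k0 / 2 ^ t : ℕ) : ℝ) + 1) ≤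
        ((k0 - 2 * (k0 / 2 ^ t + 1) : ℕ) : ℝ) := by
      have h2 : k0 ≤ (k0 - 2 * (k0 / 2 ^ t + 1)) + 2 * (k0 / 2 ^ t + 1) := by omega
      have h3 : ((k0 : ℕ) : ℝ) ≤
          (((k0 - 2 * (k0 / 2 ^ t + 1)) + 2 * (k0 / 2 ^ t + 1) : ℕ) : ℝ) := by
        exact_mod_cast h2
      rw [Nat.cast_add] at h3
      push_cast at h3 ⊢
      linarith
    have h4 : ((k0 - 2 * (k0 / 2 ^ t + 1) : ℕ) : ℝ) ≤ f n := by exact_mod_cast hlow
    linarith
  have hk1' : (1 - η / 2) * (((n : ℝ) - 2 * t - L - 2) / 2) ≤ k0 :=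
    le_trans (mul_le_mul_of_nonneg_left hn1R (by linarith)) hk1
  have hLR : (L : ℝ) ≤ η / 4 * n :=
    log_small η hη n L hn1 hLs (hN1.trans (by exact_mod_cast hnN1))
  have hN2' : 4 * ((t : ℝ) + 4) ≤ η * n := by
    have h2 : 4 * ((t : ℝ) + 4) / η ≤ n := hN2.trans (by exact_mod_cast hnN2)
    rw [div_le_iff₀ hη] at h2
    linarith
  have hbigR : 2 * (t : ℝ) + L + 2 ≤ n := by exact_mod_cast hbig
  exact real_estimate η n L t k0 (f n) hη hη1 (Nat.cast_nonneg _) (Nat.cast_nonneg _)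
    (Nat.cast_nonneg _) hbigR hLR hN2' hk1' hK

end Pool.Agent.Lib.MP_1433c5_co
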