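import Pool.Agent.Lib.MP_1433c5_co.Product

/-!
Cubes: flips, connectivity, products; from a domatic colouring to the product construction.
-/

namespace Pool.Agent.Lib.MP_1433c5_co

open SimpleGraph

section flips

variable {ι : Type} [Fintype ι] [DecidableEq ι]

/-- Flip one coordinate. -/
def flipAt (x : ι → Bool) (i : ι) : ι → Bool := Function.update x i (!(x i))

omit [Fintype ι] in
lemma flipAt_same (x : ι → Bool) (i : ι) : flipAt x i i = !(x i) := by simp [flipAt]

omit [Fintype ι] in
lemma flipAt_ne (x : ι → Bool) {i j : ι} (h : j ≠ i) : flipAt x i j = x j := by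
  simp [flipAt, h]

lemma cube_adj_flipAt (x : ι → Bool) (i : ι) : (cube ι).Adj x (flipAt x i) := by
  show hammingDist x (flipAt x i) = 1
  unfold hammingDist
  rw [Finset.card_eq_one]
  refine ⟨i, ?_⟩
  ext j
  simp only [Finset.mem_filter, Finset.mem_univ, true_and, Finset.mem_singleton]
  constructor
  · intro h
    by_contra hj
    exact h (flipAt_ne x hj).symm
  · rintro rfl
    rw [flipAt_same]
    cases x j <;> simp

lemma cube_connected : (cube ι).Connected := by
  have key : ∀ n : ℕ, ∀ x y : ι → Bool, hammingDist x y = n → (cube ι).Reachable x y := by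
    intro n
    induction n with
    | zero =>
      intro x y h
      rw [hammingDist_eq_zero] at h
      rw [h]
    | succ n ih =>
      intro x y h
      have hne : x ≠ y := by
        rintro rfl
        simp at h
      obtain ⟨i, hi⟩ := Function.ne_iff.mp hne
      refine (cube_adj_flipAt x i).reachable.trans (ih _ _ ?_)
      have h1 : (Finset.univ.filter fun j => x j ≠ y j) =
          insert i (Finset.univ.filter fun j => flipAt x i j ≠ y j) := by
        ext j
        simp only [Finset.mem_filter, Finset.mem_univ, true_and, Finset.mem_insert]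
        by_cases hj : j = i
        · subst hj
          simp [hi]
        · simp [flipAt_ne x hj, hj]
      have h2 : i ∉ (Finset.univ.filter fun j => flipAt x i j ≠ y j) := by
        simp only [Finset.mem_filter, Finset.mem_univ, true_and, not_not, flipAt_same]
        revert hi
        cases x i <;> cases y i <;> simp
      unfold hammingDist at h ⊢
      rw [h1, Finset.card_insert_of_notMem h2] at h
      omega
  have : Nonempty (ι → Bool) := ⟨fun _ => false⟩
  exact ⟨fun x y => key _ x y rfl⟩

/-- Parity of a vertex of the cube. -/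
def parity (x : ι → Bool) : ZMod 2 := ∑ i, (if x i then 1 else 0)

lemma parity_flipAt (x : ι → Bool) (i : ι) : parity (flipAt x i) = parity x + 1 := by
  unfold parity
  rw [← Finset.add_sum_erase Finset.univ _ (Finset.mem_univ i),
    ← Finset.add_sum_erase Finset.univ (fun i => if x i = true then (1 : ZMod 2) else 0)
      (Finset.mem_univ i)]
  have h1 : ∑ j ∈ Finset.univ.erase i, (if flipAt x i j = true then (1 : ZMod 2) else 0) =
      ∑ j ∈ Finset.univ.erase i, (if x j = true then (1 : ZMod 2) else 0) := by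
    refine Finset.sum_congr rfl ?_
    intro j hj
    rw [flipAt_ne x (Finset.ne_of_mem_erase hj)]
  rw [h1, flipAt_same]
  have h2 : (1 : ZMod 2) + 1 = 0 := by decide
  cases x i
  · simp; ring
  · simp only [Bool.not_true, Bool.false_eq_true, if_false, if_true]
    linear_combination -h2

end flips

section isos

lemma hammingDist_sum {α β : Type} [Fintype α] [Fintype β] (x y : α ⊕ β → Bool) :
    hammingDist x y = hammingDist (fun a => x (Sum.inl a)) (fun a => y (Sum.inl a)) +
      hammingDist (fun b => x (Sum.inr b)) (fun b => y (Sum.inr b)) := by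
  unfold hammingDist
  rw [Finset.card_filter, Finset.card_filter, Finset.card_filter, Fintype.sum_sum_type]

/-- The cube on a disjoint union is the product of the cubes. -/
def cubeSumIso (α β : Type) [Fintype α] [Fintype β] :
    cube (α ⊕ β) ≃g (cube α □ cube β) where
  toEquiv := Equiv.sumArrowEquivProdArrow α β Bool
  map_rel_iff' := by
    intro x y
    rw [SimpleGraph.boxProd_adj]
    show (hammingDist (fun a => x (Sum.inl a)) (fun a => y (Sum.inl a)) = 1 ∧
      (fun b => x (Sum.inr b)) = (fun b => y (Sum.inr b)) ∨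
      hammingDist (fun b => x (Sum.inr b)) (fun b => y (Sum.inr b)) = 1 ∧
      (fun a => x (Sum.inl a)) = (fun a => y (Sum.inl a))) ↔ hammingDist x y = 1
    rw [hammingDist_sum]
    constructor
    · rintro (⟨h1, h2⟩ | ⟨h1, h2⟩)
      · rw [h1, h2, hammingDist_self]
      · rw [h1, h2, hammingDist_self]
    · intro h
      rcases Nat.eq_zero_or_pos
        (hammingDist (fun b => x (Sum.inr b)) (fun b => y (Sum.inr b))) with h0 | h0
      · left
        exact ⟨by omega, hammingDist_eq_zero.mp h0⟩
      · right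
        exact ⟨by omega, hammingDist_eq_zero.mp (by omega)⟩

/-- Relabelling coordinates. -/
def cubeCongr {α β : Type} [Fintype α] [Fintype β] (e : α ≃ β) : cube α ≃g cube β where
  toEquiv := e.arrowCongr (Equiv.refl Bool)
  map_rel_iff' := by
    intro x y
    show hammingDist (fun b => x (e.symm b)) (fun b => y (e.symm b)) = 1 ↔ hammingDist x y = 1
    have : hammingDist (fun b => x (e.symm b)) (fun b => y (e.symm b)) = hammingDist x y := by
      unfold hammingDist
      rw [Finset.card_filter, Finset.card_filter]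
      exact Equiv.sum_comp e.symm (fun a => if x a ≠ y a then 1 else 0)
    rw [this]

/-- Products of isomorphic graphs. -/
def boxProdCongr {V W V' W' : Type} {G : SimpleGraph V} {H : SimpleGraph W}
    {G' : SimpleGraph V'} {H' : SimpleGraph W'} (e : G ≃g G') (f : H ≃g H') :
    (G □ H) ≃g (G' □ H') where
  toEquiv := Equiv.prodCongr e.toEquiv f.toEquiv
  map_rel_iff' := by
    rintro ⟨a, b⟩ ⟨c, d⟩
    rw [SimpleGraph.boxProd_adj, SimpleGraph.boxProd_adj]
    show (G'.Adj (e a) (e c) ∧ f b = f d ∨ H'.Adj (f b) (f d) ∧ e a = e c) ↔ _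
    rw [e.map_adj_iff, f.map_adj_iff, e.injective.eq_iff, f.injective.eq_iff]

end isos

/-- A domatic colouring of the cube on `ι` with colour set `Γ`: every vertex sees every other
colour on a neighbour. -/
def DomT (ι Γ : Type) [DecidableEq ι] : Prop :=
  ∃ c : (ι → Bool) → Γ, ∀ x g, g ≠ c x → ∃ i, c (flipAt x i) = g

lemma exists_psi {ι Γ : Type} [Fintype ι] [DecidableEq ι] [AddCommGroup Γ]
    (h : DomT ι Γ) :
    ∃ (c : (ι → Bool) × (ι → Bool) → Γ) (ψ : (ι → Bool) × (ι → Bool) → Γ →
      (ι → Bool) × (ι → Bool)),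
      ∀ x g, g ≠ c x → (cube ι □ cube ι).Adj x (ψ x g) ∧ c (ψ x g) = g ∧
        ψ (ψ x g) (c x) ≠ x := by
  classical
  obtain ⟨c0, hc0⟩ := h
  have h1 : ∀ x g, ∃ x', g ≠ c0 x → ∃ i, x' = flipAt x i ∧ c0 x' = g := by
    intro x g
    by_cases hg : g = c0 x
    · exact ⟨x, fun h => absurd hg h⟩
    · obtain ⟨i, hi⟩ := hc0 x g hg
      exact ⟨flipAt x i, fun _ => ⟨i, rfl, hi⟩⟩
  choose ρ hρ using h1
  let c : (ι → Bool) × (ι → Bool) → Γ := fun x => c0 x.1 + c0 x.2
  let ψ : (ι → Bool) × (ι → Bool) → Γ → (ι → Bool) × (ι → Bool) := fun x g =>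
    if parity x.1 + parity x.2 = 0 then (ρ x.1 (g - c0 x.2), x.2) else (x.1, ρ x.2 (g - c0 x.1))
  refine ⟨c, ψ, ?_⟩
  have even : ∀ x1 x2 g, parity x1 + parity x2 = 0 → ψ (x1, x2) g = (ρ x1 (g - c0 x2), x2) := by
    intro x1 x2 g h
    exact if_pos h
  have odd : ∀ x1 x2 g, parity x1 + parity x2 ≠ 0 → ψ (x1, x2) g = (x1, ρ x2 (g - c0 x1)) := by
    intro x1 x2 g h
    exact if_neg h
  have zm : ∀ t : ZMod 2, t = 0 ∨ t = 1 := by decide
  rintro ⟨x1, x2⟩ g hg
  have hg' : g ≠ c0 x1 + c0 x2 := hg
  by_cases hp : parity x1 + parity x2 = 0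
  · have hne : g - c0 x2 ≠ c0 x1 := by
      intro h
      apply hg'
      rw [← h]; abel
    obtain ⟨i, hi1, hi2⟩ := hρ x1 (g - c0 x2) hne
    rw [even _ _ _ hp]
    refine ⟨?_, ?_, ?_⟩
    · rw [SimpleGraph.boxProd_adj]
      left
      refine ⟨?_, rfl⟩
      show (cube ι).Adj x1 (ρ x1 (g - c0 x2))
      rw [hi1]
      exact cube_adj_flipAt _ _
    · show c0 (ρ x1 (g - c0 x2)) + c0 x2 = g
      rw [hi2]; abel
    · have hp' : parity (ρ x1 (g - c0 x2)) + parity x2 ≠ 0 := by
        rw [hi1, parity_flipAt]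
        have : parity x1 + 1 + parity x2 = 1 := by linear_combination hp
        rw [this]
        decide
      rw [odd _ _ _ hp']
      intro he
      have he1 : ρ x1 (g - c0 x2) = x1 := congrArg Prod.fst he
      rw [he1] at hi1
      have := congrFun hi1 i
      rw [flipAt_same] at this
      revert this
      cases x1 i <;> simp
  · have hne : g - c0 x1 ≠ c0 x2 := by
      intro h
      apply hg'
      rw [← h]; abel
    obtain ⟨i, hi1, hi2⟩ := hρ x2 (g - c0 x1) hne
    rw [odd _ _ _ hp]
    refine ⟨?_, ?_, ?_⟩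
    · rw [SimpleGraph.boxProd_adj]
      right
      refine ⟨?_, rfl⟩
      show (cube ι).Adj x2 (ρ x2 (g - c0 x1))
      rw [hi1]
      exact cube_adj_flipAt _ _
    · show c0 x1 + c0 (ρ x2 (g - c0 x1)) = g
      rw [hi2]; abel
    · have hp1 : parity x1 + parity x2 = 1 := (zm _).resolve_left hp
      have hp' : parity x1 + parity (ρ x2 (g - c0 x1)) = 0 := by
        rw [hi1, parity_flipAt]
        have h2 : (1 : ZMod 2) + 1 = 0 := by decide
        linear_combination hp1 + h2
      rw [even _ _ _ hp']
      intro he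
      have he1 : ρ x2 (g - c0 x1) = x2 := congrArg Prod.snd he
      rw [he1] at hi1
      have := congrFun hi1 i
      rw [flipAt_same] at this
      revert this
      cases x2 i <;> simp

/-- Main combinatorial construction for cubes. -/
theorem hasCol_cube {ι Γ : Type} [Fintype ι] [DecidableEq ι] [AddCommGroup Γ] [Fintype Γ]
    (h : DomT ι Γ) (t s n : ℕ) (a : Γ → (Fin t → Bool)) (ha : Function.Surjective a)
    {K : ℕ} (hK0 : 0 < K) (hs : K ≤ 2 ^ s)
    (hK : ∀ y : (Fin t → Bool) × (Fin t → Bool),
      K ≤ Nat.card {g : Γ // a g ≠ y.1 ∧ a g ≠ y.2})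
    (hn : n = 2 * Fintype.card ι + 2 * t + s) :
    HasCol (cube (Fin n)) K := by
  classical
  obtain ⟨c, ψ, hψ⟩ := exists_psi h
  -- surjection from the `Z`-cube
  have hzi : ∃ zi : (Fin s → Bool) → Fin K, Function.Surjective zi := by
    have hne : Nonempty (Fin K) := ⟨⟨0, hK0⟩⟩
    have hcard : Fintype.card (Fin K) ≤ Fintype.card (Fin s → Bool) := by
      simpa using hs
    obtain ⟨e⟩ := Function.Embedding.nonempty_of_card_le hcard
    exact ⟨Function.invFun e, Function.invFun_surjective e.injective⟩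
  obtain ⟨zi, hzi⟩ := hzi
  have hXc : (cube ι □ cube ι).Connected := cube_connected.boxProd cube_connected
  have main := hasCol_prod (GX := cube ι □ cube ι) (GP := cube (Fin t)) (GZ := cube (Fin s))
    hXc cube_connected cube_connected c ψ hψ a ha hK0 zi hzi hK
  let e1 : cube ((ι ⊕ ι) ⊕ ((Fin t ⊕ Fin t) ⊕ Fin s)) ≃g
      ((cube ι □ cube ι) □ ((cube (Fin t) □ cube (Fin t)) □ cube (Fin s))) :=
    (cubeSumIso (ι ⊕ ι) ((Fin t ⊕ Fin t) ⊕ Fin s)).trans
      (boxProdCongr (cubeSumIso ι ι)
        ((cubeSumIso (Fin t ⊕ Fin t) (Fin s)).trans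
          (boxProdCongr (cubeSumIso (Fin t) (Fin t)) Iso.refl)))
  have hcard : Fintype.card ((ι ⊕ ι) ⊕ ((Fin t ⊕ Fin t) ⊕ Fin s)) = Fintype.card (Fin n) := by
    simp only [Fintype.card_sum, Fintype.card_fin]
    omega
  exact (main.iso e1.symm).iso (cubeCongr (Fintype.equivOfCardEq hcard))

end Pool.Agent.Lib.MP_1433c5_co
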