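import Mathlib

/-!
Completely independent spanning trees of the hypercube: definitions.
-/

namespace Pool.Agent.Lib.MP_1433c5_co

/-- The cube graph on `ι → Bool`: two vertices are adjacent exactly when they differ in exactly
one coordinate. The hypercube `Q_n` is `cube (Fin n)`. -/
def cube (ι : Type) [Fintype ι] : SimpleGraph (ι → Bool) where
  Adj x y := hammingDist x y = 1
  symm := ⟨fun x y h => by rw [hammingDist_comm]; exact h⟩
  loopless := ⟨fun x h => by simp at h⟩

/-- `T_0, …, T_{k-1}` are completely independent spanning trees of the graph `G`: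
each `T_i` is a spanning tree of `G`, and for all vertices `u ≠ v` the paths joining `u` and `v`
in two different trees share no edge and no internal vertex. -/
def IsCIST {V : Type} (G : SimpleGraph V) {k : ℕ} (T : Fin k → SimpleGraph V) : Prop :=
  (∀ i, T i ≤ G ∧ (T i).IsTree) ∧
  ∀ u v : V, u ≠ v → ∀ i j : Fin k, i ≠ j →
    ∀ (p : (T i).Walk u v) (q : (T j).Walk u v), p.IsPath → q.IsPath →
      (∀ e, e ∈ p.edges → e ∉ q.edges) ∧
      (∀ w, w ≠ u → w ≠ v → w ∈ p.support → w ∉ q.support)

/-- `f(n)`: the largest `k` such that `Q_n` contains `k` completely independent spanning trees. -/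
noncomputable def f (n : ℕ) : ℕ :=
  sSup {k : ℕ | ∃ T : Fin k → SimpleGraph (Fin n → Bool), IsCIST (cube (Fin n)) T}

end Pool.Agent.Lib.MP_1433c5_co
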