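import Pool.Agent.Lib.MP_1433c5_co.Cube

/-!
Domatic colourings of cubes.
-/

namespace Pool.Agent.Lib.MP_1433c5_co

lemma DomT.congr_index {ι ι' Γ : Type} [DecidableEq ι] [DecidableEq ι'] (j : ι → ι')
    (hj : Function.Injective j) (h : DomT ι Γ) : DomT ι' Γ := by
  obtain ⟨c, hc⟩ := h
  refine ⟨fun x => c (fun i => x (j i)), ?_⟩
  intro x g hg
  obtain ⟨i, hi⟩ := hc _ g hg
  refine ⟨j i, ?_⟩
  rw [← hi]
  beta_reduce
  refine congrArg c ?_
  funext i'
  by_cases h : i' = i
  · subst h
    rw [flipAt_same, flipAt_same]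
  · rw [flipAt_ne _ (hj.ne h), flipAt_ne _ h]

lemma DomT.map {ι Γ Γ' : Type} [DecidableEq ι] (f : Γ → Γ') (hf : Function.Surjective f)
    (h : DomT ι Γ) : DomT ι Γ' := by
  obtain ⟨c, hc⟩ := h
  refine ⟨fun x => f (c x), ?_⟩
  intro x g' hg'
  obtain ⟨g, rfl⟩ := hf g'
  obtain ⟨i, hi⟩ := hc x g (by rintro rfl; exact hg' rfl)
  exact ⟨i, congrArg f hi⟩

/-- Only the numbers of coordinates and colours matter, and domatic colourings can be weakened. -/
lemma DomT.transfer {ι ι' Γ Γ' : Type} [DecidableEq ι] [DecidableEq ι'] [Finite ι] [Finite ι']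
    [Finite Γ] [Finite Γ'] [Nonempty Γ'] (h : DomT ι Γ) (h1 : Nat.card ι ≤ Nat.card ι')
    (h2 : Nat.card Γ' ≤ Nat.card Γ) : DomT ι' Γ' := by
  have := Fintype.ofFinite ι
  have := Fintype.ofFinite ι'
  have := Fintype.ofFinite Γ
  have := Fintype.ofFinite Γ'
  rw [Nat.card_eq_fintype_card, Nat.card_eq_fintype_card] at h1 h2
  obtain ⟨e⟩ := Function.Embedding.nonempty_of_card_le h1
  obtain ⟨f⟩ := Function.Embedding.nonempty_of_card_le h2
  exact (h.congr_index e e.injective).map (Function.invFun f)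
    (Function.invFun_surjective f.injective)

/-- The block construction. -/
lemma DomT.block {I ι G : Type} [Fintype I] [DecidableEq I] [DecidableEq ι] [AddCommGroup G]
    (H : I → AddSubgroup G) (hcov : ∀ g : G, g ≠ 0 → ∃ i, g ∈ H i)
    (h : ∀ i, DomT ι (H i)) : DomT (I × ι) G := by
  choose c hc using h
  refine ⟨fun x => ∑ i, ((c i (fun j => x (i, j)) : H i) : G), ?_⟩
  intro x g hg
  set S := ∑ i, ((c i (fun j => x (i, j)) : H i) : G) with hS
  obtain ⟨i, hi⟩ := hcov (g - S) (sub_ne_zero.mpr hg)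
  have hne : c i (fun j => x (i, j)) + ⟨g - S, hi⟩ ≠ c i (fun j => x (i, j)) := by
    intro h
    have h2 : (⟨g - S, hi⟩ : H i) = 0 := by
      simpa using h
    have h3 : g - S = 0 := congrArg Subtype.val h2
    exact hg (sub_eq_zero.mp h3)
  obtain ⟨j, hj⟩ := hc i (fun j => x (i, j)) _ hne
  refine ⟨(i, j), ?_⟩
  have hblock : ∀ i', (fun j' => flipAt x (i, j) (i', j')) =
      if i' = i then flipAt (fun j' => x (i', j')) j else fun j' => x (i', j') := by
    intro i'
    funext j'
    by_cases h1 : i' = i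
    · subst h1
      rw [if_pos rfl]
      by_cases h2 : j' = j
      · subst h2
        rw [flipAt_same, flipAt_same]
      · rw [flipAt_ne _ h2, flipAt_ne]
        intro h3
        exact h2 (congrArg Prod.snd h3)
    · rw [if_neg h1, flipAt_ne]
      intro h3
      exact h1 (congrArg Prod.fst h3)
  beta_reduce
  rw [← Finset.add_sum_erase Finset.univ _ (Finset.mem_univ i)]
  have h1 : ∑ i' ∈ Finset.univ.erase i, ((c i' (fun j' => flipAt x (i, j) (i', j')) : H i') : G)
      = ∑ i' ∈ Finset.univ.erase i, ((c i' (fun j' => x (i', j')) : H i') : G) := by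
    refine Finset.sum_congr rfl ?_
    intro i' hi'
    rw [hblock i', if_neg (Finset.ne_of_mem_erase hi')]
  have h2 : (c i (fun j' => flipAt x (i, j) (i, j')) : H i) =
      c i (fun j => x (i, j)) + ⟨g - S, hi⟩ := by
    rw [hblock i, if_pos rfl, hj]
  rw [h1, h2]
  have h3 : S = ((c i (fun j => x (i, j)) : H i) : G) +
      ∑ i' ∈ Finset.univ.erase i, ((c i' (fun j' => x (i', j')) : H i') : G) := by
    rw [hS]
    exact (Finset.add_sum_erase Finset.univ
      (fun i => ((c i (fun j => x (i, j)) : H i) : G)) (Finset.mem_univ i)).symm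
  have h4 : ((c i (fun j => x (i, j)) + ⟨g - S, hi⟩ : H i) : G) =
      ((c i (fun j => x (i, j)) : H i) : G) + (g - S) := rfl
  rw [h4]
  have h5 : g = S + (g - S) := by abel
  conv_rhs => rw [h5]
  conv_rhs => rw [h3]
  conv_lhs => rw [h3]
  abel

/-- The colouring by the Hamming code: `2^c` colours on `2^c` coordinates. -/
lemma domT_two_pow (c : ℕ) : DomT (Fin (2 ^ c)) (Fin (2 ^ c)) := by
  classical
  have h1 : DomT {h : Fin c → ZMod 2 // h ≠ 0} (Fin c → ZMod 2) := by
    refine ⟨fun x => ∑ h : {h : Fin c → ZMod 2 // h ≠ 0}, if x h then h.1 else 0, ?_⟩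
    intro x g hg
    set S := ∑ h : {h : Fin c → ZMod 2 // h ≠ 0}, (if x h then h.1 else 0) with hS
    have hne : g - S ≠ 0 := sub_ne_zero.mpr hg
    refine ⟨⟨g - S, hne⟩, ?_⟩
    beta_reduce
    rw [← Finset.add_sum_erase Finset.univ _
      (Finset.mem_univ (⟨g - S, hne⟩ : {h : Fin c → ZMod 2 // h ≠ 0}))]
    have e1 : ∑ h ∈ Finset.univ.erase (⟨g - S, hne⟩ : {h : Fin c → ZMod 2 // h ≠ 0}),
        (if flipAt x ⟨g - S, hne⟩ h = true then h.1 else 0) =
        ∑ h ∈ Finset.univ.erase (⟨g - S, hne⟩ : {h : Fin c → ZMod 2 // h ≠ 0}),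
        (if x h = true then h.1 else 0) := by
      refine Finset.sum_congr rfl ?_
      intro h hh
      rw [flipAt_ne x (Finset.ne_of_mem_erase hh)]
    have e2 : S = (if x ⟨g - S, hne⟩ = true then (g - S) else 0) +
        ∑ h ∈ Finset.univ.erase (⟨g - S, hne⟩ : {h : Fin c → ZMod 2 // h ≠ 0}),
        (if x h = true then h.1 else 0) := by
      conv_lhs => rw [hS]
      rw [← Finset.add_sum_erase Finset.univ _ (Finset.mem_univ ⟨g - S, hne⟩)]
    rw [e1, flipAt_same]
    have h2 : (g - S) + (g - S) = 0 := by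
      funext i
      have : ∀ t : ZMod 2, t + t = 0 := by decide
      exact this _
    have e3 : ∑ h ∈ Finset.univ.erase (⟨g - S, hne⟩ : {h : Fin c → ZMod 2 // h ≠ 0}),
        (if x h = true then h.1 else 0) =
        S - (if x ⟨g - S, hne⟩ = true then (g - S) else 0) := by
      exact eq_sub_of_add_eq' e2.symm
    rw [e3]
    cases x ⟨g - S, hne⟩
    · simp
    · simp only [Bool.not_true, Bool.false_eq_true, if_false, if_true]
      have : g = S + (g - S) := by abel
      calc 0 + (S - (g - S)) = S - (g - S) := zero_add _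
        _ = S + (g - S) - ((g - S) + (g - S)) := by abel
        _ = g := by rw [h2, sub_zero, ← this]
  refine h1.transfer ?_ ?_
  · rw [Nat.card_eq_fintype_card, Nat.card_eq_fintype_card, Fintype.card_fin]
    refine (Fintype.card_subtype_le _).trans ?_
    simp [ZMod.card]
  · simp [Nat.card_eq_fintype_card, ZMod.card]

open scoped LinearAlgebra.Projectivization

/-- The step from `q q'` colours to `q^r q'^r'` colours. -/
lemma domT_step (F F' : Type) [Field F] [Field F'] [Finite F] [Finite F'] (m r r' : ℕ)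
    (hr : 0 < r) (hr' : 0 < r')
    (h : DomT (Fin m) (Fin (Nat.card F * Nat.card F'))) :
    ∃ N N' : ℕ, N * (Nat.card F - 1) + 1 = Nat.card F ^ r ∧
      N' * (Nat.card F' - 1) + 1 = Nat.card F' ^ r' ∧
      DomT (Fin (N * N' * m)) (Fin (Nat.card F ^ r * Nat.card F' ^ r')) := by
  classical
  have hF : 0 < Nat.card F := Nat.card_pos
  have hF' : 0 < Nat.card F' := Nat.card_pos
  have hfr : Finite (Fin r → F) := inferInstance
  have hfr' : Finite (Fin r' → F') := inferInstance
  have hne : Nonempty (Fin r) := ⟨⟨0, hr⟩⟩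
  have hne' : Nonempty (Fin r') := ⟨⟨0, hr'⟩⟩
  have hcr : Nat.card (Fin r → F) = Nat.card F ^ r := by
    simp [Nat.card_fun]
  have hcr' : Nat.card (Fin r' → F') = Nat.card F' ^ r' := by
    simp [Nat.card_fun]
  have hfP : Finite (ℙ F (Fin r → F)) := inferInstance
  have hfP' : Finite (ℙ F' (Fin r' → F')) := inferInstance
  have := Fintype.ofFinite (ℙ F (Fin r → F))
  have := Fintype.ofFinite (ℙ F' (Fin r' → F'))
  refine ⟨Nat.card (ℙ F (Fin r → F)), Nat.card (ℙ F' (Fin r' → F')), ?_, ?_, ?_⟩
  · rw [← Projectivization.card', hcr]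
  · rw [← Projectivization.card', hcr']
  have hblock : DomT ((ℙ F (Fin r → F) × ℙ F' (Fin r' → F')) × Fin m)
      ((Fin r → F) × (Fin r' → F')) := by
    refine DomT.block (fun l => (l.1.submodule.toAddSubgroup).prod (l.2.submodule.toAddSubgroup))
      ?_ ?_
    · rintro ⟨v, v'⟩ -
      have hl : ∃ l : ℙ F (Fin r → F), v ∈ l.submodule := by
        by_cases hv : v = 0
        · obtain ⟨w, hw⟩ := exists_ne (0 : Fin r → F)
          refine ⟨Projectivization.mk F w hw, ?_⟩
          rw [hv]
          exact Submodule.zero_mem _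
        · refine ⟨Projectivization.mk F v hv, ?_⟩
          rw [Projectivization.submodule_mk]
          exact Submodule.mem_span_singleton_self v
      have hl' : ∃ l : ℙ F' (Fin r' → F'), v' ∈ l.submodule := by
        by_cases hv : v' = 0
        · obtain ⟨w, hw⟩ := exists_ne (0 : Fin r' → F')
          refine ⟨Projectivization.mk F' w hw, ?_⟩
          rw [hv]
          exact Submodule.zero_mem _
        · refine ⟨Projectivization.mk F' v' hv, ?_⟩
          rw [Projectivization.submodule_mk]
          exact Submodule.mem_span_singleton_self v'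
      obtain ⟨l, hl⟩ := hl
      obtain ⟨l', hl'⟩ := hl'
      exact ⟨(l, l'), AddSubgroup.mem_prod.mpr ⟨hl, hl'⟩⟩
    · rintro ⟨l, l'⟩
      have hc1 : Nat.card l.submodule = Nat.card F := by
        have := Module.natCard_eq_pow_finrank (K := F) (V := l.submodule)
        rw [this, Projectivization.finrank_submodule, pow_one]
      have hc2 : Nat.card l'.submodule = Nat.card F' := by
        have := Module.natCard_eq_pow_finrank (K := F') (V := l'.submodule)
        rw [this, Projectivization.finrank_submodule, pow_one]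
      have e : ((l.submodule.toAddSubgroup).prod (l'.submodule.toAddSubgroup)) ≃
          l.submodule × l'.submodule :=
        (AddSubgroup.prodEquiv _ _).toEquiv
      have hc : Nat.card ((l.submodule.toAddSubgroup).prod (l'.submodule.toAddSubgroup)) =
          Nat.card F * Nat.card F' := by
        rw [Nat.card_congr e, Nat.card_prod, hc1, hc2]
      have hfin : Finite ((l.submodule.toAddSubgroup).prod (l'.submodule.toAddSubgroup)) :=
        inferInstance
      refine h.transfer le_rfl ?_
      rw [hc]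
      simp
  have hpos : 0 < Nat.card F ^ r * Nat.card F' ^ r' := Nat.mul_pos (Nat.pow_pos hF) (Nat.pow_pos hF')
  have : Nonempty (Fin (Nat.card F ^ r * Nat.card F' ^ r')) := ⟨⟨0, hpos⟩⟩
  refine hblock.transfer ?_ ?_
  · rw [Nat.card_prod, Nat.card_prod]
    simp
  · rw [Nat.card_prod, hcr, hcr']
    simp

end Pool.Agent.Lib.MP_1433c5_co
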