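import Mathlib

/-!
Density of the multiplicative semigroup generated by two multiplicatively independent numbers.
-/

namespace Pool.Agent.Lib.MP_1433c5_co

/-- One-sided rational approximation of multiplicatively independent numbers. -/
lemma approx (α β : ℝ) (hα : 1 < α) (hβ : 1 < β)
    (hne : ∀ p q : ℕ, 0 < p → 0 < q → α ^ p ≠ β ^ q) (δ : ℝ) (hδ : 0 < δ) :
    ∃ p q : ℕ, 0 < p ∧ 0 < q ∧ β ^ q < α ^ p ∧ α ^ p < (1 + δ) * β ^ q := by
  have hlα : 0 < Real.log α := Real.log_pos hα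
  have hlβ : 0 < Real.log β := Real.log_pos hβ
  have hα0 : 0 < α := by linarith
  have hβ0 : 0 < β := by linarith
  set θ := Real.log α / Real.log β with hθ
  have hθ0 : 0 < θ := div_pos hlα hlβ
  have hlδ : 0 < Real.log (1 + δ) := Real.log_pos (by linarith)
  set η := min (Real.log (1 + δ) / Real.log β) θ with hη
  have hη0 : 0 < η := lt_min (div_pos hlδ hlβ) hθ0
  have hη1 : η ≤ Real.log (1 + δ) / Real.log β := min_le_left _ _
  have hη2 : η ≤ θ := min_le_right _ _
  -- it suffices to find `0 < p θ - q < η`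
  have suff : ∀ p q : ℕ, 0 < p → 0 < q → 0 < (p : ℝ) * θ - q → (p : ℝ) * θ - q < η →
      ∃ p q : ℕ, 0 < p ∧ 0 < q ∧ β ^ q < α ^ p ∧ α ^ p < (1 + δ) * β ^ q := by
    intro p q hp hq h1 h2
    have e : ((p : ℝ) * θ - q) * Real.log β = p * Real.log α - q * Real.log β := by
      rw [hθ]
      field_simp
    have h3 : 0 < (p : ℝ) * Real.log α - q * Real.log β := by
      rw [← e]; exact mul_pos h1 hlβ
    have h4 : (p : ℝ) * Real.log α - q * Real.log β < Real.log (1 + δ) := by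
      rw [← e]
      have : (p : ℝ) * θ - q < Real.log (1 + δ) / Real.log β := lt_of_lt_of_le h2 hη1
      rwa [lt_div_iff₀ hlβ] at this
    refine ⟨p, q, hp, hq, ?_, ?_⟩
    · rw [← Real.log_lt_log_iff (pow_pos hβ0 q) (pow_pos hα0 p), Real.log_pow, Real.log_pow]
      linarith
    · rw [← Real.log_lt_log_iff (pow_pos hα0 p)
        (mul_pos (by linarith) (pow_pos hβ0 q)), Real.log_mul (by linarith)
        (pow_pos hβ0 q).ne', Real.log_pow, Real.log_pow]
      linarith
  have nez : ∀ p q : ℕ, 0 < p → 0 < q → (p : ℝ) * θ - q ≠ 0 := by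
    intro p q hp hq h
    apply hne p q hp hq
    have e : ((p : ℝ) * θ - q) * Real.log β = p * Real.log α - q * Real.log β := by
      rw [hθ]
      field_simp
    rw [h, zero_mul] at e
    have h5 : Real.log (α ^ p) = Real.log (β ^ q) := by
      rw [Real.log_pow, Real.log_pow]; linarith
    exact Real.log_injOn_pos (pow_pos hα0 p) (pow_pos hβ0 q) h5
  obtain ⟨n, hn⟩ := exists_nat_one_div_lt hη0
  obtain ⟨j, k, hk0, -, hjk⟩ := Real.exists_int_int_abs_mul_sub_le θ (Nat.succ_pos n)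
  have hlt : |(k : ℝ) * θ - j| < η := by
    refine lt_of_le_of_lt hjk (lt_of_le_of_lt ?_ hn)
    push_cast
    apply one_div_le_one_div_of_le
    · positivity
    · linarith
  rw [abs_lt] at hlt
  have hk1 : (1 : ℝ) ≤ k := by exact_mod_cast hk0
  have hj0 : 0 < j := by
    by_contra hcon
    push Not at hcon
    have hj' : (j : ℝ) ≤ 0 := by exact_mod_cast hcon
    have : θ ≤ (k : ℝ) * θ := by nlinarith
    linarith [hlt.2]
  obtain ⟨p, hp⟩ := Int.eq_ofNat_of_zero_le hk0.le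
  obtain ⟨q, hq⟩ := Int.eq_ofNat_of_zero_le hj0.le
  subst hp
  subst hq
  have hp0 : 0 < p := by exact_mod_cast hk0
  have hq0 : 0 < q := by exact_mod_cast hj0
  push_cast at hlt
  rcases lt_or_gt_of_ne (nez p q hp0 hq0) with hneg | hpos
  · -- negative case
    set x : ℝ := q - p * θ with hx
    have hx0 : 0 < x := by rw [hx]; linarith
    have hx1 : x < η := by rw [hx]; linarith [hlt.1]
    have hdiv : 0 ≤ θ / x := (div_pos hθ0 hx0).le
    set M := ⌊θ / x⌋₊ with hM
    have hM1 : (M : ℝ) ≤ θ / x := Nat.floor_le hdiv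
    have hM2 : θ / x < M + 1 := Nat.lt_floor_add_one _
    have hM3 : (M : ℝ) * x ≤ θ := by rwa [le_div_iff₀ hx0] at hM1
    have hM4 : θ < (M + 1) * x := by rwa [div_lt_iff₀ hx0] at hM2
    have hM0 : 0 < M := by
      rw [hM, Nat.floor_pos, le_div_iff₀ hx0]
      linarith
    have hval : (((1 + M * p : ℕ) : ℝ)) * θ - ((M * q : ℕ) : ℝ) = θ - M * x := by
      push_cast
      rw [hx]; ring
    have hge : 0 ≤ θ - M * x := by linarith
    have hlt' : θ - M * x < x := by linarith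
    have hnz := nez (1 + M * p) (M * q) (by omega) (Nat.mul_pos hM0 hq0)
    refine suff (1 + M * p) (M * q) (by omega) (Nat.mul_pos hM0 hq0) ?_ ?_
    · rw [hval] at hnz ⊢
      exact lt_of_le_of_ne hge (Ne.symm hnz)
    · rw [hval]; linarith
  · exact suff p q hp0 hq0 hpos hlt.2

/-- The semigroup generated by two multiplicatively independent numbers has no large gaps. -/
lemma semigroup_dense (α β : ℝ) (hα : 1 < α) (hβ : 1 < β)
    (hne : ∀ p q : ℕ, 0 < p → 0 < q → α ^ p ≠ β ^ q) (δ : ℝ) (hδ : 0 < δ) :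
    ∃ T : ℝ, ∀ t : ℝ, T ≤ t → ∃ r s : ℕ, 0 < r ∧ 0 < s ∧ α ^ r * β ^ s ≤ t ∧
      t < (1 + δ) * (α ^ r * β ^ s) := by
  classical
  have hα0 : 0 < α := by linarith
  have hβ0 : 0 < β := by linarith
  obtain ⟨p, p', hp, hp', h1, h2⟩ := approx α β hα hβ hne δ hδ
  obtain ⟨q', q, hq', hq, h3, h4⟩ := approx β α hβ hα
    (fun a b ha hb h => hne b a hb ha h.symm) δ hδ
  refine ⟨α ^ (q + 1) * β ^ (p' + 1), ?_⟩
  intro t ht
  obtain ⟨A, hA⟩ := pow_unbounded_of_one_lt t hα
  obtain ⟨B, hB⟩ := pow_unbounded_of_one_lt t hβ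
  let S : Finset (ℕ × ℕ) := ((Finset.range A) ×ˢ (Finset.range B)).filter
    (fun rs => 0 < rs.1 ∧ 0 < rs.2 ∧ α ^ rs.1 * β ^ rs.2 ≤ t)
  have hS : ∀ r s : ℕ, 0 < r → 0 < s → α ^ r * β ^ s ≤ t → (r, s) ∈ S := by
    intro r s hr hs h
    have hαr : 1 ≤ α ^ r := one_le_pow₀ hα.le
    have hβs : 1 ≤ β ^ s := one_le_pow₀ hβ.le
    have e1 : α ^ r ≤ t := by nlinarith
    have e2 : β ^ s ≤ t := by nlinarith
    refine Finset.mem_filter.mpr ⟨Finset.mem_product.mpr ⟨?_, ?_⟩, hr, hs, h⟩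
    · rw [Finset.mem_range]
      exact (pow_lt_pow_iff_right₀ hα).mp (lt_of_le_of_lt e1 hA)
    · rw [Finset.mem_range]
      exact (pow_lt_pow_iff_right₀ hβ).mp (lt_of_le_of_lt e2 hB)
  have hne' : S.Nonempty := ⟨(q + 1, p' + 1), hS _ _ (by omega) (by omega) ht⟩
  obtain ⟨⟨r, s⟩, hrs, hmax⟩ := Finset.exists_max_image S (fun rs => α ^ rs.1 * β ^ rs.2) hne'
  obtain ⟨-, hr, hs, hle⟩ := Finset.mem_filter.mp hrs
  simp only at hr hs hle
  refine ⟨r, s, hr, hs, hle, ?_⟩
  by_contra hcon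
  push Not at hcon
  have hαr : 0 < α ^ r := pow_pos hα0 r
  have hβs : 0 < β ^ s := pow_pos hβ0 s
  by_cases c1 : q < r
  · -- replace `α^q` by `β^q'`
    have e1 : α ^ r = α ^ (r - q) * α ^ q := by rw [← pow_add]; congr 1; omega
    have hpos : 0 < α ^ (r - q) * β ^ s := mul_pos (pow_pos hα0 _) hβs
    have e2 : α ^ (r - q) * β ^ (s + q') = (α ^ (r - q) * β ^ s) * β ^ q' := by
      rw [pow_add]; ring
    have e3 : α ^ r * β ^ s = (α ^ (r - q) * β ^ s) * α ^ q := by rw [e1]; ring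
    have hlt : α ^ r * β ^ s < α ^ (r - q) * β ^ (s + q') := by
      rw [e2, e3]; exact mul_lt_mul_of_pos_left h3 hpos
    have hle2 : α ^ (r - q) * β ^ (s + q') ≤ t := by
      refine le_trans ?_ hcon
      rw [e2, e3]
      have := mul_lt_mul_of_pos_left h4 hpos
      linarith
    have := hmax (r - q, s + q') (hS _ _ (by omega) (by omega) hle2)
    simp only at this
    linarith
  · by_cases c2 : p' < s
    · have e1 : β ^ s = β ^ (s - p') * β ^ p' := by rw [← pow_add]; congr 1; omega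
      have hpos : 0 < α ^ r * β ^ (s - p') := mul_pos hαr (pow_pos hβ0 _)
      have e2 : α ^ (r + p) * β ^ (s - p') = (α ^ r * β ^ (s - p')) * α ^ p := by
        rw [pow_add]; ring
      have e3 : α ^ r * β ^ s = (α ^ r * β ^ (s - p')) * β ^ p' := by rw [e1]; ring
      have hlt : α ^ r * β ^ s < α ^ (r + p) * β ^ (s - p') := by
        rw [e2, e3]; exact mul_lt_mul_of_pos_left h1 hpos
      have hle2 : α ^ (r + p) * β ^ (s - p') ≤ t := by
        refine le_trans ?_ hcon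
        rw [e2, e3]
        have := mul_lt_mul_of_pos_left h2 hpos
        linarith
      have := hmax (r + p, s - p') (hS _ _ (by omega) (by omega) hle2)
      simp only at this
      linarith
    · -- both exponents small
      have e1 : α ^ r < α ^ (q + 1) := (pow_lt_pow_iff_right₀ hα).mpr (by omega)
      have e2 : β ^ s < β ^ (p' + 1) := (pow_lt_pow_iff_right₀ hβ).mpr (by omega)
      have := hmax (q + 1, p' + 1) (hS _ _ (by omega) (by omega) ht)
      simp only at this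
      have h5 : α ^ r * β ^ s < α ^ (q + 1) * β ^ (p' + 1) :=
        mul_lt_mul'' e1 e2 hαr.le hβs.le
      linarith

/-- Powers of `2` and `3` are different. -/
lemma two_three_pow_ne (a b p q : ℕ) (ha : 0 < a) (hp : 0 < p) :
    ((2 : ℝ) ^ a) ^ p ≠ ((3 : ℝ) ^ b) ^ q := by
  intro h
  have h1 : ((2 : ℕ) ^ a) ^ p = (3 ^ b) ^ q := by exact_mod_cast h
  have h2 : Even (((2 : ℕ) ^ a) ^ p) := by
    rw [← pow_mul]
    exact (Nat.even_pow.mpr ⟨even_two, (Nat.mul_pos ha hp).ne'⟩)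
  rw [h1] at h2
  have h3 : Odd ((3 ^ b) ^ q : ℕ) := ((by decide : Odd 3).pow).pow
  exact (Nat.not_even_iff_odd.mpr h3) h2

end Pool.Agent.Lib.MP_1433c5_co
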