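import Pool.Agent.Lib.MP_1433c5_co.Dom
import Pool.Agent.Lib.MP_1433c5_co.Num

/-!
The domatic number of `Q_n` is asymptotically `n`.
-/

namespace Pool.Agent.Lib.MP_1433c5_co

theorem exists_domT (ε : ℝ) (hε : 0 < ε) (hε1 : ε ≤ 1) :
    ∃ N0 : ℕ, ∀ n : ℕ, N0 ≤ n → ∃ k : ℕ, (1 - ε) * n ≤ k ∧ k ≤ n ∧ 0 < k ∧
      DomT (Fin n) (Fin k) := by
  set δ : ℝ := ε / 15 with hδ
  have hδ0 : 0 < δ := by positivity
  have hδ1 : δ ≤ 1 := by rw [hδ]; linarith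
  have hδ4 : (1 + δ) ^ 4 * (1 - ε) ≤ 1 := by
    have h1 : (1 + δ) ^ 4 ≤ 1 + 15 * δ := by nlinarith [sq_nonneg δ, mul_pos hδ0 hδ0, mul_pos (mul_pos hδ0 hδ0) hδ0]
    have h2 : 0 ≤ 1 - ε := by linarith
    calc (1 + δ) ^ 4 * (1 - ε) ≤ (1 + 15 * δ) * (1 - ε) := mul_le_mul_of_nonneg_right h1 h2
      _ = 1 - ε ^ 2 := by rw [hδ]; ring
      _ ≤ 1 := by nlinarith [sq_nonneg ε]
  obtain ⟨a, ha⟩ := pow_unbounded_of_one_lt (1 + 1 / δ) (by norm_num : (1 : ℝ) < 2)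
  obtain ⟨L, hL⟩ := pow_unbounded_of_one_lt (1 + 1 / δ) (by norm_num : (1 : ℝ) < 3)
  have hdpos : 0 < 1 / δ := by positivity
  have ha0 : 0 < a := by
    rcases Nat.eq_zero_or_pos a with h | h
    · rw [h] at ha; norm_num at ha; linarith
    · exact h
  have hL0 : 0 < L := by
    rcases Nat.eq_zero_or_pos L with h | h
    · rw [h] at hL; norm_num at hL; linarith
    · exact h
  have h3L : (1 : ℝ) < 3 ^ L := by linarith
  obtain ⟨c', q, hc', hq, hl1, hl2⟩ := approx 2 (3 ^ L) (by norm_num) h3L (by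
    intro p q hp hq h
    have := two_three_pow_ne 1 L p q one_pos hp
    rw [pow_one] at this
    exact this h) δ hδ0
  set b := L * q with hb
  have hb0 : 0 < b := Nat.mul_pos hL0 hq
  rw [← pow_mul, ← hb] at hl1 hl2
  -- sizes
  have h2a : (1 : ℝ) + 1 / δ < 2 ^ a := ha
  have h3b : (1 : ℝ) + 1 / δ < 3 ^ b := by
    refine lt_of_lt_of_le hL ?_
    apply pow_le_pow_right₀ (by norm_num)
    rw [hb]
    exact Nat.le_mul_of_pos_right L hq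
  have hA1 : (2 : ℝ) ^ a ≤ (1 + δ) * (2 ^ a - 1) := by
    have h1 : 1 / δ * δ = 1 := by field_simp
    nlinarith
  have hB1 : (3 : ℝ) ^ b ≤ (1 + δ) * (3 ^ b - 1) := by
    have h1 : 1 / δ * δ = 1 := by field_simp
    nlinarith
  have hA0 : (0 : ℝ) < 2 ^ a - 1 := by linarith
  have hB0 : (0 : ℝ) < 3 ^ b - 1 := by linarith
  -- base colouring
  have hbase : DomT (Fin (2 ^ (a + c'))) (Fin (2 ^ a * 3 ^ b)) := by
    have hpos : 0 < 2 ^ a * 3 ^ b := by positivity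
    have : Nonempty (Fin (2 ^ a * 3 ^ b)) := ⟨⟨0, hpos⟩⟩
    refine (domT_two_pow (a + c')).transfer le_rfl ?_
    rw [Nat.card_eq_fintype_card, Nat.card_eq_fintype_card, Fintype.card_fin, Fintype.card_fin,
      pow_add]
    have : (3 : ℝ) ^ b ≤ 2 ^ c' := hl1.le
    have h3 : 3 ^ b ≤ 2 ^ c' := by exact_mod_cast this
    exact Nat.mul_le_mul_left _ h3
  -- fields
  have p2 : Fact (Nat.Prime 2) := ⟨Nat.prime_two⟩
  have p3 : Fact (Nat.Prime 3) := ⟨Nat.prime_three⟩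
  have hcF : Nat.card (GaloisField 2 a) = 2 ^ a := GaloisField.card 2 a ha0.ne'
  have hcF' : Nat.card (GaloisField 3 b) = 3 ^ b := GaloisField.card 3 b hb0.ne'
  have hfin : Finite (GaloisField 2 a) := Nat.finite_of_card_ne_zero (by rw [hcF]; positivity)
  have hfin' : Finite (GaloisField 3 b) := Nat.finite_of_card_ne_zero (by rw [hcF']; positivity)
  -- semigroup
  obtain ⟨T, hT⟩ := semigroup_dense (2 ^ a) (3 ^ b) (by linarith) (by linarith)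
    (fun p q hp _ => two_three_pow_ne a b p q ha0 hp) δ hδ0
  set M : ℝ := 2 ^ (a + c') with hM
  set ρ : ℝ := M / ((2 ^ a - 1) * (3 ^ b - 1)) with hρ
  have hD0 : (0 : ℝ) < (2 ^ a - 1) * (3 ^ b - 1) := mul_pos hA0 hB0
  have hM0 : 0 < M := by rw [hM]; positivity
  have hρ0 : 0 < ρ := div_pos hM0 hD0
  have hMval : M = 2 ^ a * 2 ^ c' := by rw [hM, pow_add]
  have hρ1 : 1 ≤ ρ := by
    rw [hρ, le_div_iff₀ hD0, one_mul, hMval]
    have : (3 : ℝ) ^ b - 1 ≤ 2 ^ c' := by linarith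
    exact mul_le_mul (by linarith) this hB0.le (by positivity)
  have hρ3 : ρ ≤ (1 + δ) ^ 3 := by
    rw [hρ, div_le_iff₀ hD0, hMval]
    have e1 : (2 : ℝ) ^ c' ≤ (1 + δ) ^ 2 * (3 ^ b - 1) := by
      calc (2 : ℝ) ^ c' ≤ (1 + δ) * 3 ^ b := hl2.le
        _ ≤ (1 + δ) * ((1 + δ) * (3 ^ b - 1)) := mul_le_mul_of_nonneg_left hB1 (by linarith)
        _ = (1 + δ) ^ 2 * (3 ^ b - 1) := by ring
    calc (2 : ℝ) ^ a * 2 ^ c' ≤ ((1 + δ) * (2 ^ a - 1)) * ((1 + δ) ^ 2 * (3 ^ b - 1)) :=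
          mul_le_mul hA1 e1 (by positivity) (by positivity)
      _ = (1 + δ) ^ 3 * ((2 ^ a - 1) * (3 ^ b - 1)) := by ring
  obtain ⟨N0, hN0⟩ := exists_nat_ge (T * ρ)
  refine ⟨N0, ?_⟩
  intro n hn
  have hn' : (N0 : ℝ) ≤ n := by exact_mod_cast hn
  have ht : T ≤ (n : ℝ) / ρ := by
    rw [le_div_iff₀ hρ0]; linarith
  obtain ⟨r, s, hr, hs, h1, h2⟩ := hT _ ht
  obtain ⟨N, N', hN, hN', hdom⟩ := domT_step (GaloisField 2 a) (GaloisField 3 b)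
    (2 ^ (a + c')) r s hr hs (by rw [hcF, hcF']; exact hbase)
  rw [hcF] at hN hdom
  rw [hcF'] at hN' hdom
  set k := (2 ^ a) ^ r * (3 ^ b) ^ s with hk
  have hkR : (k : ℝ) = (2 ^ a) ^ r * (3 ^ b) ^ s := by rw [hk]; push_cast; ring
  rw [← hkR] at h1 h2
  have hk0 : 0 < k := by rw [hk]; positivity
  have hk0R : (0 : ℝ) < k := by exact_mod_cast hk0
  have hkn : (k : ℝ) * ρ ≤ n := by rwa [le_div_iff₀ hρ0] at h1
  have hkn2 : (n : ℝ) < (1 + δ) * k * ρ := by rwa [div_lt_iff₀ hρ0] at h2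
  refine ⟨k, ?_, ?_, hk0, ?_⟩
  · have e1 : (n : ℝ) ≤ (1 + δ) ^ 4 * k := by
      calc (n : ℝ) ≤ (1 + δ) * k * ρ := hkn2.le
        _ ≤ (1 + δ) * k * (1 + δ) ^ 3 := mul_le_mul_of_nonneg_left hρ3 (by positivity)
        _ = (1 + δ) ^ 4 * k := by ring
    have h2 : 0 ≤ 1 - ε := by linarith
    calc (1 - ε) * n ≤ (1 - ε) * ((1 + δ) ^ 4 * k) := mul_le_mul_of_nonneg_left e1 h2
      _ = ((1 + δ) ^ 4 * (1 - ε)) * k := by ring
      _ ≤ 1 * k := mul_le_mul_of_nonneg_right hδ4 hk0R.le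
      _ = k := one_mul _
  · have : (k : ℝ) ≤ n := by nlinarith
    exact_mod_cast this
  · have : Nonempty (Fin k) := ⟨⟨0, hk0⟩⟩
    refine hdom.transfer ?_ le_rfl
    rw [Nat.card_eq_fintype_card, Nat.card_eq_fintype_card, Fintype.card_fin, Fintype.card_fin]
    have hN1 : (N : ℝ) * (2 ^ a - 1) ≤ (2 ^ a) ^ r := by
      have h1 : N * (2 ^ a - 1) ≤ (2 ^ a) ^ r := by omega
      have h2 : ((N * (2 ^ a - 1) : ℕ) : ℝ) ≤ (((2 ^ a) ^ r : ℕ) : ℝ) := by exact_mod_cast h1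
      rw [Nat.cast_mul, Nat.cast_sub Nat.one_le_two_pow] at h2
      push_cast at h2
      exact h2
    have hN1' : (N' : ℝ) * (3 ^ b - 1) ≤ (3 ^ b) ^ s := by
      have h1 : N' * (3 ^ b - 1) ≤ (3 ^ b) ^ s := by omega
      have h2 : ((N' * (3 ^ b - 1) : ℕ) : ℝ) ≤ (((3 ^ b) ^ s : ℕ) : ℝ) := by exact_mod_cast h1
      rw [Nat.cast_mul, Nat.cast_sub (Nat.one_le_pow _ _ (by norm_num))] at h2
      push_cast at h2
      exact h2
    have e1 : (N : ℝ) * N' * ((2 ^ a - 1) * (3 ^ b - 1)) ≤ k := by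
      rw [hkR]
      calc (N : ℝ) * N' * ((2 ^ a - 1) * (3 ^ b - 1))
          = (N * (2 ^ a - 1)) * (N' * (3 ^ b - 1)) := by ring
        _ ≤ (2 ^ a) ^ r * (3 ^ b) ^ s := mul_le_mul hN1 hN1' (by positivity) (by positivity)
    have e2 : (N : ℝ) * N' * M ≤ n := by
      have e3 : M = ρ * ((2 ^ a - 1) * (3 ^ b - 1)) := by
        rw [hρ, div_mul_cancel₀ _ hD0.ne']
      calc (N : ℝ) * N' * M = ρ * ((N : ℝ) * N' * ((2 ^ a - 1) * (3 ^ b - 1))) := by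
            rw [e3]; ring
        _ ≤ ρ * k := mul_le_mul_of_nonneg_left e1 hρ0.le
        _ ≤ n := by linarith
    rw [hM] at e2
    exact_mod_cast e2

end Pool.Agent.Lib.MP_1433c5_co
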