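import Pool.Agent.Lib.MP_1433c5_co.Tree

/-!
Making colour classes connected: the product construction.
-/

namespace Pool.Agent.Lib.MP_1433c5_co

open SimpleGraph

lemma rlift {α β : Type} {r : α → α → Prop} {s : β → β → Prop} (f : α → β)
    (h : ∀ a b, r a b → s (f a) (f b)) {a b : α} (hab : Relation.ReflTransGen r a b) :
    Relation.ReflTransGen s (f a) (f b) := by
  induction hab with
  | refl => exact Relation.ReflTransGen.refl
  | tail _ h1 ih => exact ih.tail (h _ _ h1)

lemma rsymm {α : Type} {r : α → α → Prop} (h : ∀ a b, r a b → r b a) {a b : α}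
    (hab : Relation.ReflTransGen r a b) : Relation.ReflTransGen r b a := by
  induction hab with
  | refl => exact Relation.ReflTransGen.refl
  | tail _ h1 ih => exact Relation.ReflTransGen.head (h _ _ h1) ih

/-- A colouring with `k` colours whose classes are connected and such that every vertex has,
for every other colour, a chosen neighbour of that colour, no edge being chosen from both ends. -/
def HasCol {V : Type} (G : SimpleGraph V) (k : ℕ) : Prop :=
  ∃ κ : V → Fin k, Function.Surjective κ ∧ (∀ a b, κ a = κ b → Reach G κ a b) ∧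
    ∃ φ : V → Fin k → V,
      ∀ v i, i ≠ κ v → G.Adj v (φ v i) ∧ κ (φ v i) = i ∧ φ (φ v i) (κ v) ≠ v

lemma HasCol.iso {V W : Type} {G : SimpleGraph V} {H : SimpleGraph W} {k : ℕ} (h : HasCol G k)
    (e : G ≃g H) : HasCol H k := by
  obtain ⟨κ, hs, hc, φ, hφ⟩ := h
  refine ⟨fun w => κ (e.symm w), ?_, ?_, fun w i => e (φ (e.symm w) i), ?_⟩
  · intro i
    obtain ⟨v, hv⟩ := hs i
    exact ⟨e v, by simpa using hv⟩
  · intro a b hab
    have h1 := hc _ _ hab
    have h2 : Relation.ReflTransGen (fun a b => H.Adj a b ∧ κ (e.symm b) = κ (e.symm a))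
        (e (e.symm a)) (e (e.symm b)) := by
      refine rlift e ?_ h1
      intro x y hxy
      refine ⟨e.map_adj_iff.mpr hxy.1, ?_⟩
      simpa using hxy.2
    rw [RelIso.apply_symm_apply, RelIso.apply_symm_apply] at h2
    exact h2
  · intro w i hi
    obtain ⟨h1, h2, h3⟩ := hφ (e.symm w) i hi
    refine ⟨?_, ?_, ?_⟩
    · have := e.map_adj_iff.mpr h1
      simpa using this
    · simpa using h2
    · intro he
      apply h3
      have := congrArg e.symm he
      simpa using this

lemma HasCol.exists_isCIST {V : Type} {G : SimpleGraph V} {k : ℕ} (h : HasCol G k) :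
    ∃ T : Fin k → SimpleGraph V, IsCIST G T := by
  obtain ⟨κ, hs, hc, φ, hφ⟩ := h
  exact Pool.Agent.Lib.MP_1433c5_co.exists_isCIST G κ hs hc φ hφ

section product

variable {X P Z Γ : Type} {GX : SimpleGraph X} {GP : SimpleGraph P} {GZ : SimpleGraph Z}

open Classical in
/-- The recoloured product colouring. -/
noncomputable def prodCol {K : ℕ} (c : X → Γ) (a : Γ → P) (zi : Z → Fin K)
    (κ : P × P → Γ → Fin K) : X × ((P × P) × Z) → Fin K :=
  fun v => if a (c v.1) = v.2.1.1 ∨ a (c v.1) = v.2.1.2 then zi v.2.2 else κ v.2.1 (c v.1)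

theorem hasCol_prod (hX : GX.Connected) (hP : GP.Connected) (hZ : GZ.Connected)
    (c : X → Γ) (ψ : X → Γ → X)
    (hψ : ∀ x g, g ≠ c x → GX.Adj x (ψ x g) ∧ c (ψ x g) = g ∧ ψ (ψ x g) (c x) ≠ x)
    (a : Γ → P) (ha : Function.Surjective a) {K : ℕ} (hK0 : 0 < K) [Fintype Γ]
    (zi : Z → Fin K) (hzi : Function.Surjective zi)
    (hK : ∀ y : P × P, K ≤ Nat.card {g : Γ // a g ≠ y.1 ∧ a g ≠ y.2}) :
    HasCol (GX □ ((GP □ GP) □ GZ)) K := by
  classical
  have hnK : Nonempty (Fin K) := ⟨⟨0, hK0⟩⟩
  -- choose the real colours in every layer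
  have hsel : ∀ y : P × P, ∃ s : Fin K → Γ, Function.Injective s ∧
      ∀ i, a (s i) ≠ y.1 ∧ a (s i) ≠ y.2 := by
    intro y
    have h1 : Fintype.card (Fin K) ≤ Fintype.card {g : Γ // a g ≠ y.1 ∧ a g ≠ y.2} := by
      have := hK y
      rw [Nat.card_eq_fintype_card] at this
      simpa using this
    obtain ⟨e⟩ := Function.Embedding.nonempty_of_card_le h1
    exact ⟨fun i => (e i : Γ), fun i j hij => e.injective (Subtype.ext hij),
      fun i => (e i).2⟩
  choose sel hsel1 hsel2 using hsel
  let κ : P × P → Γ → Fin K := fun y => Function.invFun (sel y)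
  have hκ : ∀ y i, κ y (sel y i) = i := fun y => Function.leftInverse_invFun (hsel1 y)
  set col := prodCol c a zi κ with hcol
  have hwild : ∀ x y1 y2 z, a (c x) = y1 ∨ a (c x) = y2 → col (x, (y1, y2), z) = zi z := by
    intro x y1 y2 z h
    rw [hcol]
    exact if_pos h
  have hreal : ∀ x y1 y2 z, a (c x) ≠ y1 → a (c x) ≠ y2 →
      col (x, (y1, y2), z) = κ (y1, y2) (c x) := by
    intro x y1 y2 z h1 h2
    rw [hcol]
    exact if_neg (by rintro (h | h); exacts [h1 h, h2 h])
  set G := GX □ ((GP □ GP) □ GZ) with hG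
  have symm : ∀ v w, Reach G col v w → Reach G col w v := by
    intro v w h
    refine rsymm ?_ h
    intro a b hab
    exact ⟨hab.1.symm, hab.2.symm⟩
  have hstep : ∀ v w, G.Adj v w → col w = col v → Reach G col v w := fun v w h1 h2 =>
    Relation.ReflTransGen.single ⟨h1, h2⟩
  have hcolR : ∀ v w, Reach G col v w → col w = col v := by
    intro v w h
    induction h with
    | refl => rfl
    | tail _ h1 ih => rw [h1.2, ih]
  -- adjacency rules
  have adjX : ∀ x x' y z, GX.Adj x x' → G.Adj (x, y, z) (x', y, z) := by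
    intro x x' y z h
    rw [hG]
    simp [SimpleGraph.boxProd_adj, h]
  have adj1 : ∀ x y1 y1' y2 z, GP.Adj y1 y1' → G.Adj (x, (y1, y2), z) (x, (y1', y2), z) := by
    intro x y1 y1' y2 z h
    rw [hG]
    simp [SimpleGraph.boxProd_adj, h]
  have adj2 : ∀ x y1 y2 y2' z, GP.Adj y2 y2' → G.Adj (x, (y1, y2), z) (x, (y1, y2'), z) := by
    intro x y1 y2 y2' z h
    rw [hG]
    simp [SimpleGraph.boxProd_adj, h]
  have adjZ : ∀ x y z z', GZ.Adj z z' → G.Adj (x, y, z) (x, y, z') := by
    intro x y z z' h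
    rw [hG]
    simp [SimpleGraph.boxProd_adj, h]
  -- moving in the second coordinate with the first one wild
  have move2 : ∀ x y2 y2' z, Reach G col (x, (a (c x), y2), z) (x, (a (c x), y2'), z) := by
    intro x y2 y2' z
    have h := (SimpleGraph.reachable_iff_reflTransGen y2 y2').mp (hP.preconnected y2 y2')
    refine rlift (fun t => (x, (a (c x), t), z)) ?_ h
    intro s t hst
    refine ⟨adj2 _ _ _ _ _ hst, ?_⟩
    rw [hwild _ _ _ _ (Or.inl rfl), hwild _ _ _ _ (Or.inl rfl)]
  have move1 : ∀ x y1 y1' z, Reach G col (x, (y1, a (c x)), z) (x, (y1', a (c x)), z) := by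
    intro x y1 y1' z
    have h := (SimpleGraph.reachable_iff_reflTransGen y1 y1').mp (hP.preconnected y1 y1')
    refine rlift (fun t => (x, (t, a (c x)), z)) ?_ h
    intro s t hst
    refine ⟨adj1 _ _ _ _ _ hst, ?_⟩
    rw [hwild _ _ _ _ (Or.inr rfl), hwild _ _ _ _ (Or.inr rfl)]
  -- hub vertices
  have toHub : ∀ x y1 y2 z, a (c x) = y1 ∨ a (c x) = y2 →
      Reach G col (x, (y1, y2), z) (x, (a (c x), a (c x)), z) := by
    rintro x y1 y2 z (h | h)
    · subst h; exact move2 _ _ _ _
    · subst h; exact move1 _ _ _ _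
  have hubAdj : ∀ x x' z, GX.Adj x x' →
      Reach G col (x, (a (c x), a (c x)), z) (x', (a (c x'), a (c x')), z) := by
    intro x x' z h
    refine (move2 x (a (c x)) (a (c x')) z).trans ?_
    refine Relation.ReflTransGen.trans ?_ (move1 x' (a (c x)) (a (c x')) z)
    refine hstep _ _ (adjX _ _ _ _ h) ?_
    rw [hwild _ _ _ _ (Or.inl rfl), hwild _ _ _ _ (Or.inr rfl)]
  have hub : ∀ x x' z, Reach G col (x, (a (c x), a (c x)), z) (x', (a (c x'), a (c x')), z) := by
    intro x x' z
    have h := (SimpleGraph.reachable_iff_reflTransGen x x').mp (hX.preconnected x x')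
    induction h with
    | refl => exact Relation.ReflTransGen.refl
    | tail _ h1 ih => exact ih.trans (hubAdj _ _ _ h1)
  -- every vertex reaches the hub of its colour
  choose zr hzr using hzi
  have toBase : ∀ v x0, Reach G col v (x0, (a (c x0), a (c x0)), zr (col v)) := by
    -- first: real vertices
    have real : ∀ x y1 y2 z x0, a (c x) ≠ y1 → a (c x) ≠ y2 →
        Reach G col (x, (y1, y2), z)
          (x0, (a (c x0), a (c x0)), zr (col (x, (y1, y2), z))) := by
      intro x y1 y2 z x0 h1 h2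
      set i := col (x, (y1, y2), z) with hi
      have hval : ∀ z', col (x, (y1, y2), z') = i := by
        intro z'
        rw [hreal _ _ _ _ h1 h2, hi, hreal _ _ _ _ h1 h2]
      -- move in Z
      have hz : Reach G col (x, (y1, y2), z) (x, (y1, y2), zr i) := by
        have h := (SimpleGraph.reachable_iff_reflTransGen z (zr i)).mp (hZ.preconnected z (zr i))
        refine rlift (fun t => (x, (y1, y2), t)) ?_ h
        intro s t hst
        exact ⟨adjZ _ _ _ _ hst, by rw [hval, hval]⟩
      obtain ⟨g, hg⟩ := ha y1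
      have hgx : g ≠ c x := by
        rintro rfl
        exact h1 hg
      obtain ⟨e1, e2, -⟩ := hψ x g hgx
      have hw : a (c (ψ x g)) = y1 ∨ a (c (ψ x g)) = y2 := Or.inl (by rw [e2, hg])
      refine hz.trans ?_
      refine Relation.ReflTransGen.trans (hstep _ (ψ x g, (y1, y2), zr i) (adjX _ _ _ _ e1) ?_) ?_
      · rw [hval, hwild _ _ _ _ hw, hzr]
      · exact (toHub _ _ _ _ hw).trans (hub _ _ _)
    rintro ⟨x, ⟨y1, y2⟩, z⟩ x0
    by_cases hw : a (c x) = y1 ∨ a (c x) = y2
    · -- wild vertex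
      set i := zi z with hi
      have hc0 : col (x, (y1, y2), z) = i := hwild _ _ _ _ hw
      have hg := hsel2 (y1, y2) i
      have hgx : sel (y1, y2) i ≠ c x := by
        intro he
        rw [he] at hg
        rcases hw with h | h
        · exact hg.1 h
        · exact hg.2 h
      obtain ⟨e1, e2, -⟩ := hψ x _ hgx
      have h1 : a (c (ψ x (sel (y1, y2) i))) ≠ y1 := by rw [e2]; exact hg.1
      have h2 : a (c (ψ x (sel (y1, y2) i))) ≠ y2 := by rw [e2]; exact hg.2
      have hc1 : col (ψ x (sel (y1, y2) i), (y1, y2), z) = i := by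
        rw [hreal _ _ _ _ h1 h2, e2, hκ]
      have h3 := real (ψ x (sel (y1, y2) i)) y1 y2 z x0 h1 h2
      rw [hc1] at h3
      rw [hc0]
      exact Relation.ReflTransGen.trans (hstep _ _ (adjX _ _ _ _ e1) (by rw [hc0, hc1])) h3
    · push Not at hw
      exact real x y1 y2 z x0 hw.1 hw.2
  obtain ⟨x0⟩ := hX.nonempty
  refine ⟨col, ?_, ?_, ?_⟩
  · intro i
    refine ⟨(x0, (a (c x0), a (c x0)), zr i), ?_⟩
    rw [hwild _ _ _ _ (Or.inl rfl), hzr]
  · intro v w hvw
    have h1 := toBase v x0
    have h2 := toBase w x0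
    rw [hvw] at h1
    exact h1.trans (symm _ _ h2)
  · refine ⟨fun v i => (ψ v.1 (sel v.2.1 i), v.2), ?_⟩
    rintro ⟨x, ⟨y1, y2⟩, z⟩ i hi
    have hg := hsel2 (y1, y2) i
    have hgx : sel (y1, y2) i ≠ c x := by
      intro he
      apply hi
      rw [he] at hg
      rw [hreal _ _ _ _ hg.1 hg.2, ← he, hκ]
    obtain ⟨e1, e2, e3⟩ := hψ x _ hgx
    refine ⟨adjX _ _ _ _ e1, ?_, ?_⟩
    · show col (ψ x (sel (y1, y2) i), (y1, y2), z) = i
      rw [hreal _ _ _ _ (by rw [e2]; exact hg.1) (by rw [e2]; exact hg.2), e2, hκ]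
    · intro he
      have he' : ψ (ψ x (sel (y1, y2) i)) (sel (y1, y2) (col (x, (y1, y2), z))) = x :=
        congrArg Prod.fst he
      by_cases hc : sel (y1, y2) (col (x, (y1, y2), z)) = c x
      · rw [hc] at he'
        exact e3 he'
      · have hne : sel (y1, y2) (col (x, (y1, y2), z)) ≠ c (ψ x (sel (y1, y2) i)) := by
          rw [e2]
          intro h
          exact hi (hsel1 _ h).symm
        have := (hψ _ _ hne).2.1
        rw [he'] at this
        exact hc this.symm

end product

end Pool.Agent.Lib.MP_1433c5_co
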