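import Pool.Agent.Lib.MP_1433c5_co.Defs

/-!
Trees from parent functions, and completely independent spanning trees from colourings.
-/

namespace Pool.Agent.Lib.MP_1433c5_co

open SimpleGraph

variable {V : Type}

/-- The graph of a parent function. -/
def parGraph (r : V) (par : V → V) : SimpleGraph V where
  Adj a b := a ≠ b ∧ ((a ≠ r ∧ par a = b) ∨ (b ≠ r ∧ par b = a))
  symm := ⟨fun _ _ h => ⟨h.1.symm, h.2.symm⟩⟩
  loopless := ⟨fun _ h => h.1 rfl⟩

lemma parGraph_isTree (r : V) (par : V → V) (h : V → ℕ) (hh : ∀ v, v ≠ r → h (par v) < h v) :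
    (parGraph r par).IsTree := by
  have hadj : ∀ v, v ≠ r → (parGraph r par).Adj v (par v) := by
    intro v hv
    refine ⟨?_, Or.inl ⟨hv, rfl⟩⟩
    intro he
    have := hh v hv
    rw [← he] at this
    exact lt_irrefl _ this
  have hreach : ∀ n v, h v ≤ n → (parGraph r par).Reachable v r := by
    intro n
    induction n with
    | zero =>
      intro v hv
      by_cases hvr : v = r
      · subst hvr; exact Reachable.refl _
      · have := hh v hvr
        omega
    | succ n ih =>
      intro v hv
      by_cases hvr : v = r
      · subst hvr; exact Reachable.refl _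
      · have h1 := hh v hvr
        exact (hadj v hvr).reachable.trans (ih (par v) (by omega))
  have hconn : (parGraph r par).Connected := by
    have : Nonempty V := ⟨r⟩
    exact ⟨fun u v => (hreach _ u le_rfl).trans (hreach _ v le_rfl).symm⟩
  refine ⟨hconn, ?_⟩
  intro v c hc
  -- vertex of maximal height on the cycle
  classical
  obtain ⟨w, hw, hmax⟩ := Finset.exists_max_image c.support.toFinset h
    ⟨v, by simp⟩
  have hw' : w ∈ c.support := by simpa using hw
  have hmax' : ∀ x ∈ c.support, h x ≤ h w := fun x hx => hmax x (by simpa using hx)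
  have hc2 : (c.rotate w hw').IsCycle := hc.rotate hw'
  have hsup : ∀ x, x ∈ (c.rotate w hw').support → h x ≤ h w := by
    intro x hx
    apply hmax'
    rwa [Walk.mem_support_rotate_iff] at hx
  have key : ∀ x, (parGraph r par).Adj w x → h x ≤ h w → x = par w := by
    rintro x ⟨hne, h1 | h1⟩ hx
    · exact h1.2.symm
    · exfalso
      have := hh x h1.1
      rw [h1.2] at this
      omega
  have e1 : (c.rotate w hw').snd = par w := by
    apply key
    · exact (c.rotate w hw').adj_snd hc2.not_nil
    · exact hsup _ (Walk.getVert_mem_support _ _)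
  have e2 : (c.rotate w hw').penultimate = par w := by
    apply key
    · exact ((c.rotate w hw').adj_penultimate hc2.not_nil).symm
    · exact hsup _ (Walk.getVert_mem_support _ _)
  exact hc2.snd_ne_penultimate (e1.trans e2.symm)

/-- Internal vertices of a path have two distinct neighbours. -/
lemma exists_two_nbrs {G : SimpleGraph V} {u v : V} (p : G.Walk u v) (hp : p.IsPath) (w : V)
    (hwu : w ≠ u) (hwv : w ≠ v) (hw : w ∈ p.support) :
    ∃ a b, a ≠ b ∧ G.Adj w a ∧ G.Adj w b := by
  induction p with
  | nil => simp at hw; exact absurd hw hwu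
  | @cons u u' v h p ih =>
    rw [Walk.cons_isPath_iff] at hp
    rw [Walk.support_cons, List.mem_cons] at hw
    rcases hw with hw | hw
    · exact absurd hw hwu
    · by_cases hwu' : w = u'
      · subst hwu'
        cases p with
        | nil => exact absurd rfl hwv
        | @cons _ u'' _ h' p' =>
          refine ⟨u, u'', ?_, h.symm, h'⟩
          rintro rfl
          apply hp.2
          simp
      · exact ih hp.1 hwu' hwv hw

/-- Reachability inside a colour class. -/
def Reach (G : SimpleGraph V) {K : Type} (κ : V → K) : V → V → Prop :=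
  Relation.ReflTransGen (fun a b => G.Adj a b ∧ κ b = κ a)

/-- **Colourings give completely independent spanning trees.** -/
theorem exists_isCIST {k : ℕ} (G : SimpleGraph V) (κ : V → Fin k) (hsurj : Function.Surjective κ)
    (hconn : ∀ a b, κ a = κ b → Reach G κ a b)
    (φ : V → Fin k → V)
    (hφ : ∀ v i, i ≠ κ v → G.Adj v (φ v i) ∧ κ (φ v i) = i ∧ φ (φ v i) (κ v) ≠ v) :
    ∃ T : Fin k → SimpleGraph V, IsCIST G T := by
  classical
  -- roots
  choose r hr using hsurj
  -- the class graphs
  let H : Fin k → SimpleGraph V := fun i =>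
    { Adj := fun a b => G.Adj a b ∧ κ a = i ∧ κ b = i
      symm := ⟨fun a b h => ⟨h.1.symm, h.2.2, h.2.1⟩⟩
      loopless := ⟨fun a h => G.loopless.irrefl a h.1⟩ }
  have hH : ∀ i v, κ v = i → (H i).Reachable v (r i) := by
    intro i v hv
    have h1 : Reach G κ v (r i) := hconn _ _ (by rw [hv, hr])
    have h2 : ∀ w, Reach G κ v w → (H i).Reachable v w ∧ κ w = i := by
      intro w hw
      induction hw with
      | refl => exact ⟨Reachable.refl _, hv⟩
      | @tail b c _ hbc ih =>
        refine ⟨ih.1.trans ?_, by rw [hbc.2, ih.2]⟩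
        have : (H i).Adj b c := ⟨hbc.1, ih.2, by rw [hbc.2, ih.2]⟩
        exact this.reachable
    exact (h2 _ h1).1
  -- parents inside the class
  have hpar : ∀ i v, ∃ w, κ v = i → v ≠ r i →
      (H i).Adj v w ∧ (H i).dist w (r i) < (H i).dist v (r i) := by
    intro i v
    by_cases hv : κ v = i
    · by_cases hvr : v = r i
      · exact ⟨v, fun _ h => absurd hvr h⟩
      · obtain ⟨p, hp⟩ := (hH i v hv).exists_walk_length_eq_dist
        cases p with
        | nil => exact absurd rfl hvr
        | @cons _ w _ h p =>
          refine ⟨w, fun _ _ => ⟨h, ?_⟩⟩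
          rw [← hp, Walk.length_cons]
          have := dist_le p
          omega
    · exact ⟨v, fun h => absurd h hv⟩
  choose pr hpr using hpar
  let par : Fin k → V → V := fun i v => if κ v = i then pr i v else φ v i
  let ht : Fin k → V → ℕ := fun i v =>
    if κ v = i then (H i).dist v (r i) else 1 + (H i).dist (φ v i) (r i)
  have hpar_class : ∀ i v, v ≠ r i → κ (par i v) = i := by
    intro i v hv
    by_cases h : κ v = i
    · simp only [par, if_pos h]
      exact (hpr i v h hv).1.2.2
    · simp only [par, if_neg h]
      exact (hφ v i (Ne.symm h)).2.1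
  have hpar_adj : ∀ i v, v ≠ r i → G.Adj v (par i v) := by
    intro i v hv
    by_cases h : κ v = i
    · simp only [par, if_pos h]
      exact (hpr i v h hv).1.1
    · simp only [par, if_neg h]
      exact (hφ v i (Ne.symm h)).1
  have hht : ∀ i v, v ≠ r i → ht i (par i v) < ht i v := by
    intro i v hv
    have hc := hpar_class i v hv
    have e1 : ht i (par i v) = (H i).dist (par i v) (r i) := if_pos hc
    rw [e1]
    by_cases h : κ v = i
    · have e2 : ht i v = (H i).dist v (r i) := if_pos h
      have e3 : par i v = pr i v := if_pos h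
      rw [e2, e3]
      exact (hpr i v h hv).2
    · have e2 : ht i v = 1 + (H i).dist (φ v i) (r i) := if_neg h
      have e3 : par i v = φ v i := if_neg h
      rw [e2, e3]
      omega
  let T : Fin k → SimpleGraph V := fun i => parGraph (r i) (par i)
  -- non-leaves of `T i` have colour `i`
  have hleaf : ∀ i v a b, a ≠ b → (T i).Adj v a → (T i).Adj v b → κ v = i := by
    intro i v a b hab ha hb
    by_contra hv
    have hnr : ∀ w, w ≠ r i → par i w ≠ v := by
      intro w hw he
      apply hv
      rw [← he]
      exact hpar_class i w hw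
    rcases ha.2 with h1 | h1
    · rcases hb.2 with h2 | h2
      · exact hab (h1.2.symm.trans h2.2)
      · exact hnr b h2.1 h2.2
    · exact hnr a h1.1 h1.2
  -- the trees are edge-disjoint
  have hedge : ∀ i j a b, i ≠ j → (T i).Adj a b → (T j).Adj a b → False := by
    -- one-sided statements
    have same : ∀ i j a b, i ≠ j → a ≠ r i → par i a = b → a ≠ r j → par j a = b → False := by
      intro i j a b hij h1 h2 h3 h4
      apply hij
      rw [← hpar_class i a h1, ← hpar_class j a h3, h2, h4]
    have opp : ∀ i j a b, i ≠ j → a ≠ r i → par i a = b → b ≠ r j → par j b = a → False := by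
      intro i j a b hij h1 h2 h3 h4
      have hb : κ b = i := by rw [← h2]; exact hpar_class i a h1
      have ha : κ a = j := by rw [← h4]; exact hpar_class j b h3
      have hai : κ a ≠ i := by rw [ha]; exact hij.symm
      have hbj : κ b ≠ j := by rw [hb]; exact hij
      have e1 : φ a i = b := by rw [← h2]; exact (if_neg hai).symm
      have e2 : φ b j = a := by rw [← h4]; exact (if_neg hbj).symm
      apply (hφ a i hai.symm).2.2
      rw [e1, ha, e2]
    intro i j a b hij h1 h2
    rcases h1.2 with h1 | h1 <;> rcases h2.2 with h2 | h2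
    · exact same i j a b hij h1.1 h1.2 h2.1 h2.2
    · exact opp i j a b hij h1.1 h1.2 h2.1 h2.2
    · exact opp i j b a hij h1.1 h1.2 h2.1 h2.2
    · exact same i j b a hij h1.1 h1.2 h2.1 h2.2
  refine ⟨T, ?_, ?_⟩
  · intro i
    refine ⟨?_, parGraph_isTree (r i) (par i) (ht i) (hht i)⟩
    intro a b hab
    rcases hab.2 with h1 | h1
    · rw [← h1.2]; exact hpar_adj i a h1.1
    · rw [← h1.2]; exact (hpar_adj i b h1.1).symm
  · intro u v huv i j hij p q hp hq
    refine ⟨?_, ?_⟩
    · intro e hep heq
      induction e using Sym2.ind with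
      | _ a b =>
        exact hedge i j a b hij (p.adj_of_mem_edges hep) (q.adj_of_mem_edges heq)
    · intro w hwu hwv hwp hwq
      obtain ⟨a, b, hab, h1, h2⟩ := exists_two_nbrs p hp w hwu hwv hwp
      obtain ⟨a', b', hab', h1', h2'⟩ := exists_two_nbrs q hq w hwu hwv hwq
      exact hij ((hleaf i w a b hab h1 h2).symm.trans (hleaf j w a' b' hab' h1' h2'))

end Pool.Agent.Lib.MP_1433c5_co
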